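import Pool.Agent.helper12.GP.Pm

/-!
Generated: constants of the corner programs of the table E4a.
-/

namespace Pool.Agent.helper12.KA

open Pool.Agent.helper31.IA (Z)
open Pool.Agent.helper12.GP

def p0 : Pm where
  ec := ⟨247497490432, 0, 0, 0⟩
  bc := ⟨0, 0, 0, 0⟩
  nn := ⟨1099511627776, 0, 0, 0⟩
  tj := ⟨4398046511104, 0, 0, 0⟩
  ca := ⟨1099511627776, 0, 0, 0⟩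
  cb := ⟨879662989312, 0, 0, 0⟩
  cc := ⟨0, 0, 0, 0⟩
  ax := ⟨0, 0, 0, 0⟩
  ay := ⟨0, 0, 0, 0⟩
  xa := ⟨0, 0, 0, 0⟩
  C2 := ⟨0, 0, 0, 0⟩
  wr := ⟨0, 0, 0, 0⟩
  wi := ⟨0, 0, 0, 0⟩
  w1 := ⟨0, 0, 0, 0⟩
  h000 := ⟨0, 3362064960, 0, 0⟩
  h001 := ⟨138976701120, 0, 0, 0⟩
  h002 := ⟨20233772544, 0, 0, 0⟩
  h003 := ⟨0, 227194918400, 0, 0⟩
  h010 := ⟨0, 128692992, 0, 0⟩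
  h011 := ⟨699945991616, 0, 0, 0⟩
  h012 := ⟨0, 2102219943168, 0, 0⟩
  h020 := ⟨0, 55367299328, 0, 0⟩
  h021 := ⟨4824371284288, 0, 0, 0⟩
  h030 := ⟨0, 530563540672, 0, 0⟩
  h100 := ⟨38346253248, 0, 0, 0⟩
  h101 := ⟨0, 42594457152, 0, 0⟩
  h102 := ⟨0, 20537175168, 0, 0⟩
  h110 := ⟨153709500864, 0, 0, 0⟩
  h111 := ⟨0, 188024172160, 0, 0⟩
  h120 := ⟨1632830080, 0, 0, 0⟩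
  h200 := ⟨0, 11945195904, 0, 0⟩
  h201 := ⟨3759430144, 0, 0, 0⟩
  h210 := ⟨0, 39819967424, 0, 0⟩
  h300 := ⟨1100389312, 0, 0, 0⟩
  h400 := ⟨0, 24035392, 0, 0⟩
  m000 := ⟨1072812916736, 0, 0, 0⟩
  m001 := ⟨0, 38311165952, 0, 0⟩
  m002 := ⟨367135621120, 0, 0, 0⟩
  m010 := ⟨26036142080, 0, 0, 0⟩
  m100 := ⟨165941739520, 0, 0, 0⟩
  m101 := ⟨13873446912, 0, 0, 0⟩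
  m110 := ⟨671991922688, 0, 0, 0⟩
  m200 := ⟨0, 10193666048, 0, 0⟩
  m300 := ⟨0, 393216, 0, 0⟩
  a00 := ⟨135654277120, 0, 0, 0⟩
  a01 := ⟨145134190592, 0, 0, 0⟩
  a02 := ⟨0, 2405794316288, 0, 0⟩
  a03 := ⟨4108283936768, 0, 0, 0⟩
  a10 := ⟨304065216512, 0, 0, 0⟩
  a11 := ⟨0, 3094467051520, 0, 0⟩
  b00 := ⟨124777070592, 0, 0, 0⟩
  b01 := ⟨89289523200, 0, 0, 0⟩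
  b02 := ⟨0, 2108816621568, 0, 0⟩
  b03 := ⟨4096222822400, 0, 0, 0⟩
  b10 := ⟨293599903744, 0, 0, 0⟩
  b11 := ⟨0, 2621042982912, 0, 0⟩
  t00 := ⟨1372779839488, 0, 0, 0⟩
  t01 := ⟨1993027485696, 0, 0, 0⟩
  t02 := ⟨0, 28700051570688, 0, 0⟩
  t03 := ⟨132844118016000, 0, 0, 0⟩
  t10 := ⟨0, 1299549978624, 0, 0⟩
  t11 := ⟨14987658592256, 0, 0, 0⟩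
  s00 := ⟨1457469652992, 0, 0, 0⟩
  s01 := ⟨3182259404800, 0, 0, 0⟩
  s02 := ⟨3922408570880, 0, 0, 0⟩
  s03 := ⟨0, 7474799771648, 0, 0⟩
  s10 := ⟨0, 100585570304, 0, 0⟩
  s11 := ⟨17090918744064, 0, 0, 0⟩
  g00 := ⟨0, 0, 0, 0⟩
  g01 := ⟨0, 0, 0, 0⟩
  g10 := ⟨0, 0, 0, 0⟩
  g11 := ⟨0, 0, 0, 0⟩
  f00 := ⟨0, 0, 0, 0⟩
  f01 := ⟨0, 0, 0, 0⟩
  f10 := ⟨0, 0, 0, 0⟩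
  f11 := ⟨0, 0, 0, 0⟩
  l000 := ⟨0, 0, 0, 0⟩
  l001 := ⟨0, 0, 0, 0⟩
  l002 := ⟨0, 0, 0, 0⟩
  l010 := ⟨0, 0, 0, 0⟩
  l011 := ⟨0, 0, 0, 0⟩
  l020 := ⟨0, 0, 0, 0⟩
  l100 := ⟨0, 0, 0, 0⟩
  l101 := ⟨0, 0, 0, 0⟩
  l102 := ⟨0, 0, 0, 0⟩
  l110 := ⟨0, 0, 0, 0⟩
  l111 := ⟨0, 0, 0, 0⟩
  l120 := ⟨0, 0, 0, 0⟩
  l200 := ⟨0, 0, 0, 0⟩
  l201 := ⟨0, 0, 0, 0⟩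
  l210 := ⟨0, 0, 0, 0⟩
  l300 := ⟨0, 0, 0, 0⟩
  l301 := ⟨0, 0, 0, 0⟩
  l310 := ⟨0, 0, 0, 0⟩
  l400 := ⟨0, 0, 0, 0⟩
  l401 := ⟨0, 0, 0, 0⟩
  l410 := ⟨0, 0, 0, 0⟩
  l500 := ⟨0, 0, 0, 0⟩
  l600 := ⟨0, 0, 0, 0⟩
  l700 := ⟨0, 0, 0, 0⟩
  q00 := ⟨0, 0, 0, 0⟩
  q01 := ⟨0, 0, 0, 0⟩
  q02 := ⟨0, 0, 0, 0⟩
  q03 := ⟨0, 0, 0, 0⟩
  q10 := ⟨0, 0, 0, 0⟩
  q11 := ⟨0, 0, 0, 0⟩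
  q12 := ⟨0, 0, 0, 0⟩
  q20 := ⟨0, 0, 0, 0⟩
  q21 := ⟨0, 0, 0, 0⟩
  q30 := ⟨0, 0, 0, 0⟩
  n000 := ⟨0, 0, 0, 0⟩
  n001 := ⟨0, 0, 0, 0⟩
  n002 := ⟨0, 0, 0, 0⟩
  n010 := ⟨0, 0, 0, 0⟩
  n011 := ⟨0, 0, 0, 0⟩
  n020 := ⟨0, 0, 0, 0⟩
  n100 := ⟨0, 0, 0, 0⟩
  n101 := ⟨0, 0, 0, 0⟩
  n110 := ⟨0, 0, 0, 0⟩
  n200 := ⟨0, 0, 0, 0⟩
  n201 := ⟨0, 0, 0, 0⟩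
  n210 := ⟨0, 0, 0, 0⟩
  n300 := ⟨0, 0, 0, 0⟩
  n400 := ⟨0, 0, 0, 0⟩
  n500 := ⟨0, 0, 0, 0⟩
  e00 := ⟨0, 0, 0, 0⟩
  e01 := ⟨0, 0, 0, 0⟩
  e02 := ⟨0, 0, 0, 0⟩
  e03 := ⟨0, 0, 0, 0⟩
  e10 := ⟨0, 0, 0, 0⟩
  e11 := ⟨0, 0, 0, 0⟩
  B1 := 0

def p1 : Pm where
  ec := ⟨247497490432, 0, 0, 0⟩
  bc := ⟨0, 0, 0, 0⟩
  nn := ⟨2199023255552, 0, 0, 0⟩
  tj := ⟨6597069766656, 0, 0, 0⟩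
  ca := ⟨879662989312, 0, 0, 0⟩
  cb := ⟨659814350848, 0, 0, 0⟩
  cc := ⟨0, 0, 0, 0⟩
  ax := ⟨0, 0, 0, 0⟩
  ay := ⟨0, 0, 0, 0⟩
  xa := ⟨0, 0, 0, 0⟩
  C2 := ⟨0, 0, 0, 0⟩
  wr := ⟨0, 0, 0, 0⟩
  wi := ⟨0, 0, 0, 0⟩
  w1 := ⟨0, 0, 0, 0⟩
  h000 := ⟨0, 3362064960, 0, 0⟩
  h001 := ⟨138976701120, 0, 0, 0⟩
  h002 := ⟨20233772544, 0, 0, 0⟩
  h003 := ⟨0, 227194918400, 0, 0⟩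
  h010 := ⟨0, 128692992, 0, 0⟩
  h011 := ⟨699945991616, 0, 0, 0⟩
  h012 := ⟨0, 2102219943168, 0, 0⟩
  h020 := ⟨0, 55367299328, 0, 0⟩
  h021 := ⟨4824371284288, 0, 0, 0⟩
  h030 := ⟨0, 530563540672, 0, 0⟩
  h100 := ⟨38346253248, 0, 0, 0⟩
  h101 := ⟨0, 42594457152, 0, 0⟩
  h102 := ⟨0, 20537175168, 0, 0⟩
  h110 := ⟨153709500864, 0, 0, 0⟩
  h111 := ⟨0, 188024172160, 0, 0⟩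
  h120 := ⟨1632830080, 0, 0, 0⟩
  h200 := ⟨0, 11945195904, 0, 0⟩
  h201 := ⟨3759430144, 0, 0, 0⟩
  h210 := ⟨0, 39819967424, 0, 0⟩
  h300 := ⟨1100389312, 0, 0, 0⟩
  h400 := ⟨0, 24035392, 0, 0⟩
  m000 := ⟨1082303905792, 0, 0, 0⟩
  m001 := ⟨0, 25453920256, 0, 0⟩
  m002 := ⟨384126484480, 0, 0, 0⟩
  m010 := ⟨21710700544, 0, 0, 0⟩
  m100 := ⟨152543232000, 0, 0, 0⟩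
  m101 := ⟨12135956480, 0, 0, 0⟩
  m110 := ⟨697863241728, 0, 0, 0⟩
  m200 := ⟨0, 4383178752, 0, 0⟩
  m300 := ⟨0, 832634880, 0, 0⟩
  a00 := ⟨124777070592, 0, 0, 0⟩
  a01 := ⟨89289523200, 0, 0, 0⟩
  a02 := ⟨0, 2108816621568, 0, 0⟩
  a03 := ⟨4096222822400, 0, 0, 0⟩
  a10 := ⟨293599903744, 0, 0, 0⟩
  a11 := ⟨0, 2621042982912, 0, 0⟩
  b00 := ⟨114697633792, 0, 0, 0⟩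
  b01 := ⟨39547371520, 0, 0, 0⟩
  b02 := ⟨0, 1766120620032, 0, 0⟩
  b03 := ⟨3784910635008, 0, 0, 0⟩
  b10 := ⟨285848567808, 0, 0, 0⟩
  b11 := ⟨0, 2240029065216, 0, 0⟩
  t00 := ⟨1250153332736, 0, 0, 0⟩
  t01 := ⟨2063642394624, 0, 0, 0⟩
  t02 := ⟨0, 13222051446784, 0, 0⟩
  t03 := ⟨32441519308800, 0, 0, 0⟩
  t10 := ⟨0, 474429390848, 0, 0⟩
  t11 := ⟨0, 1005128450048, 0, 0⟩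
  s00 := ⟨2830249492480, 0, 0, 0⟩
  s01 := ⟨5175286890496, 0, 0, 0⟩
  s02 := ⟨0, 24777642999808, 0, 0⟩
  s03 := ⟨125369318244352, 0, 0, 0⟩
  s10 := ⟨0, 1400135548928, 0, 0⟩
  s11 := ⟨32078577336320, 0, 0, 0⟩
  g00 := ⟨0, 0, 0, 0⟩
  g01 := ⟨0, 0, 0, 0⟩
  g10 := ⟨0, 0, 0, 0⟩
  g11 := ⟨0, 0, 0, 0⟩
  f00 := ⟨0, 0, 0, 0⟩
  f01 := ⟨0, 0, 0, 0⟩
  f10 := ⟨0, 0, 0, 0⟩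
  f11 := ⟨0, 0, 0, 0⟩
  l000 := ⟨0, 0, 0, 0⟩
  l001 := ⟨0, 0, 0, 0⟩
  l002 := ⟨0, 0, 0, 0⟩
  l010 := ⟨0, 0, 0, 0⟩
  l011 := ⟨0, 0, 0, 0⟩
  l020 := ⟨0, 0, 0, 0⟩
  l100 := ⟨0, 0, 0, 0⟩
  l101 := ⟨0, 0, 0, 0⟩
  l102 := ⟨0, 0, 0, 0⟩
  l110 := ⟨0, 0, 0, 0⟩
  l111 := ⟨0, 0, 0, 0⟩
  l120 := ⟨0, 0, 0, 0⟩
  l200 := ⟨0, 0, 0, 0⟩
  l201 := ⟨0, 0, 0, 0⟩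
  l210 := ⟨0, 0, 0, 0⟩
  l300 := ⟨0, 0, 0, 0⟩
  l301 := ⟨0, 0, 0, 0⟩
  l310 := ⟨0, 0, 0, 0⟩
  l400 := ⟨0, 0, 0, 0⟩
  l401 := ⟨0, 0, 0, 0⟩
  l410 := ⟨0, 0, 0, 0⟩
  l500 := ⟨0, 0, 0, 0⟩
  l600 := ⟨0, 0, 0, 0⟩
  l700 := ⟨0, 0, 0, 0⟩
  q00 := ⟨0, 0, 0, 0⟩
  q01 := ⟨0, 0, 0, 0⟩
  q02 := ⟨0, 0, 0, 0⟩
  q03 := ⟨0, 0, 0, 0⟩
  q10 := ⟨0, 0, 0, 0⟩
  q11 := ⟨0, 0, 0, 0⟩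
  q12 := ⟨0, 0, 0, 0⟩
  q20 := ⟨0, 0, 0, 0⟩
  q21 := ⟨0, 0, 0, 0⟩
  q30 := ⟨0, 0, 0, 0⟩
  n000 := ⟨0, 0, 0, 0⟩
  n001 := ⟨0, 0, 0, 0⟩
  n002 := ⟨0, 0, 0, 0⟩
  n010 := ⟨0, 0, 0, 0⟩
  n011 := ⟨0, 0, 0, 0⟩
  n020 := ⟨0, 0, 0, 0⟩
  n100 := ⟨0, 0, 0, 0⟩
  n101 := ⟨0, 0, 0, 0⟩
  n110 := ⟨0, 0, 0, 0⟩
  n200 := ⟨0, 0, 0, 0⟩
  n201 := ⟨0, 0, 0, 0⟩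
  n210 := ⟨0, 0, 0, 0⟩
  n300 := ⟨0, 0, 0, 0⟩
  n400 := ⟨0, 0, 0, 0⟩
  n500 := ⟨0, 0, 0, 0⟩
  e00 := ⟨0, 0, 0, 0⟩
  e01 := ⟨0, 0, 0, 0⟩
  e02 := ⟨0, 0, 0, 0⟩
  e03 := ⟨0, 0, 0, 0⟩
  e10 := ⟨0, 0, 0, 0⟩
  e11 := ⟨0, 0, 0, 0⟩
  B1 := 0

def p2 : Pm where
  ec := ⟨247497490432, 0, 0, 0⟩
  bc := ⟨0, 0, 0, 0⟩
  nn := ⟨3298534883328, 0, 0, 0⟩
  tj := ⟨8796093022208, 0, 0, 0⟩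
  ca := ⟨659814350848, 0, 0, 0⟩
  cb := ⟨494726545408, 0, 0, 0⟩
  cc := ⟨0, 0, 0, 0⟩
  ax := ⟨0, 0, 0, 0⟩
  ay := ⟨0, 0, 0, 0⟩
  xa := ⟨0, 0, 0, 0⟩
  C2 := ⟨0, 0, 0, 0⟩
  wr := ⟨0, 0, 0, 0⟩
  wi := ⟨0, 0, 0, 0⟩
  w1 := ⟨0, 0, 0, 0⟩
  h000 := ⟨0, 3362064960, 0, 0⟩
  h001 := ⟨138976701120, 0, 0, 0⟩
  h002 := ⟨20233772544, 0, 0, 0⟩
  h003 := ⟨0, 227194918400, 0, 0⟩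
  h010 := ⟨0, 128692992, 0, 0⟩
  h011 := ⟨699945991616, 0, 0, 0⟩
  h012 := ⟨0, 2102219943168, 0, 0⟩
  h020 := ⟨0, 55367299328, 0, 0⟩
  h021 := ⟨4824371284288, 0, 0, 0⟩
  h030 := ⟨0, 530563540672, 0, 0⟩
  h100 := ⟨38346253248, 0, 0, 0⟩
  h101 := ⟨0, 42594457152, 0, 0⟩
  h102 := ⟨0, 20537175168, 0, 0⟩
  h110 := ⟨153709500864, 0, 0, 0⟩
  h111 := ⟨0, 188024172160, 0, 0⟩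
  h120 := ⟨1632830080, 0, 0, 0⟩
  h200 := ⟨0, 11945195904, 0, 0⟩
  h201 := ⟨3759430144, 0, 0, 0⟩
  h210 := ⟨0, 39819967424, 0, 0⟩
  h300 := ⟨1100389312, 0, 0, 0⟩
  h400 := ⟨0, 24035392, 0, 0⟩
  m000 := ⟨1089624604672, 0, 0, 0⟩
  m001 := ⟨0, 13516996608, 0, 0⟩
  m002 := ⟨299834605568, 0, 0, 0⟩
  m010 := ⟨20543766528, 0, 0, 0⟩
  m100 := ⟨141521780736, 0, 0, 0⟩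
  m101 := ⟨6884950016, 0, 0, 0⟩
  m110 := ⟨696956026880, 0, 0, 0⟩
  m200 := ⟨1693253632, 0, 0, 0⟩
  m300 := ⟨0, 1864695808, 0, 0⟩
  a00 := ⟨114697633792, 0, 0, 0⟩
  a01 := ⟨39547371520, 0, 0, 0⟩
  a02 := ⟨0, 1766120620032, 0, 0⟩
  a03 := ⟨3784910635008, 0, 0, 0⟩
  a10 := ⟨285848567808, 0, 0, 0⟩
  a11 := ⟨0, 2240029065216, 0, 0⟩
  b00 := ⟨105426911232, 0, 0, 0⟩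
  b01 := ⟨0, 10779230208, 0, 0⟩
  b02 := ⟨0, 1287948468224, 0, 0⟩
  b03 := ⟨2891512545280, 0, 0, 0⟩
  b10 := ⟨278304194560, 0, 0, 0⟩
  b11 := ⟨0, 1881002344448, 0, 0⟩
  t00 := ⟨1151450087424, 0, 0, 0⟩
  t01 := ⟨2068371275776, 0, 0, 0⟩
  t02 := ⟨0, 2049666121728, 0, 0⟩
  t03 := ⟨0, 12527156985856, 0, 0⟩
  t10 := ⟨26417823744, 0, 0, 0⟩
  t11 := ⟨0, 944270540800, 0, 0⟩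
  s00 := ⟨4080402825216, 0, 0, 0⟩
  s01 := ⟨7238929285120, 0, 0, 0⟩
  s02 := ⟨0, 37999694446592, 0, 0⟩
  s03 := ⟨157810837553152, 0, 0, 0⟩
  s10 := ⟨0, 1874564939776, 0, 0⟩
  s11 := ⟨31073448886272, 0, 0, 0⟩
  g00 := ⟨0, 0, 0, 0⟩
  g01 := ⟨0, 0, 0, 0⟩
  g10 := ⟨0, 0, 0, 0⟩
  g11 := ⟨0, 0, 0, 0⟩
  f00 := ⟨0, 0, 0, 0⟩
  f01 := ⟨0, 0, 0, 0⟩
  f10 := ⟨0, 0, 0, 0⟩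
  f11 := ⟨0, 0, 0, 0⟩
  l000 := ⟨0, 0, 0, 0⟩
  l001 := ⟨0, 0, 0, 0⟩
  l002 := ⟨0, 0, 0, 0⟩
  l010 := ⟨0, 0, 0, 0⟩
  l011 := ⟨0, 0, 0, 0⟩
  l020 := ⟨0, 0, 0, 0⟩
  l100 := ⟨0, 0, 0, 0⟩
  l101 := ⟨0, 0, 0, 0⟩
  l102 := ⟨0, 0, 0, 0⟩
  l110 := ⟨0, 0, 0, 0⟩
  l111 := ⟨0, 0, 0, 0⟩
  l120 := ⟨0, 0, 0, 0⟩
  l200 := ⟨0, 0, 0, 0⟩
  l201 := ⟨0, 0, 0, 0⟩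
  l210 := ⟨0, 0, 0, 0⟩
  l300 := ⟨0, 0, 0, 0⟩
  l301 := ⟨0, 0, 0, 0⟩
  l310 := ⟨0, 0, 0, 0⟩
  l400 := ⟨0, 0, 0, 0⟩
  l401 := ⟨0, 0, 0, 0⟩
  l410 := ⟨0, 0, 0, 0⟩
  l500 := ⟨0, 0, 0, 0⟩
  l600 := ⟨0, 0, 0, 0⟩
  l700 := ⟨0, 0, 0, 0⟩
  q00 := ⟨0, 0, 0, 0⟩
  q01 := ⟨0, 0, 0, 0⟩
  q02 := ⟨0, 0, 0, 0⟩
  q03 := ⟨0, 0, 0, 0⟩
  q10 := ⟨0, 0, 0, 0⟩
  q11 := ⟨0, 0, 0, 0⟩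
  q12 := ⟨0, 0, 0, 0⟩
  q20 := ⟨0, 0, 0, 0⟩
  q21 := ⟨0, 0, 0, 0⟩
  q30 := ⟨0, 0, 0, 0⟩
  n000 := ⟨0, 0, 0, 0⟩
  n001 := ⟨0, 0, 0, 0⟩
  n002 := ⟨0, 0, 0, 0⟩
  n010 := ⟨0, 0, 0, 0⟩
  n011 := ⟨0, 0, 0, 0⟩
  n020 := ⟨0, 0, 0, 0⟩
  n100 := ⟨0, 0, 0, 0⟩
  n101 := ⟨0, 0, 0, 0⟩
  n110 := ⟨0, 0, 0, 0⟩
  n200 := ⟨0, 0, 0, 0⟩
  n201 := ⟨0, 0, 0, 0⟩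
  n210 := ⟨0, 0, 0, 0⟩
  n300 := ⟨0, 0, 0, 0⟩
  n400 := ⟨0, 0, 0, 0⟩
  n500 := ⟨0, 0, 0, 0⟩
  e00 := ⟨0, 0, 0, 0⟩
  e01 := ⟨0, 0, 0, 0⟩
  e02 := ⟨0, 0, 0, 0⟩
  e03 := ⟨0, 0, 0, 0⟩
  e10 := ⟨0, 0, 0, 0⟩
  e11 := ⟨0, 0, 0, 0⟩
  B1 := 0

def p3 : Pm where
  ec := ⟨247497490432, 0, 0, 0⟩
  bc := ⟨0, 0, 0, 0⟩
  nn := ⟨4398046511104, 0, 0, 0⟩
  tj := ⟨10995116277760, 0, 0, 0⟩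
  ca := ⟨494726545408, 0, 0, 0⟩
  cb := ⟨384936443904, 0, 0, 0⟩
  cc := ⟨0, 0, 0, 0⟩
  ax := ⟨0, 0, 0, 0⟩
  ay := ⟨0, 0, 0, 0⟩
  xa := ⟨0, 0, 0, 0⟩
  C2 := ⟨0, 0, 0, 0⟩
  wr := ⟨0, 0, 0, 0⟩
  wi := ⟨0, 0, 0, 0⟩
  w1 := ⟨0, 0, 0, 0⟩
  h000 := ⟨0, 3362064960, 0, 0⟩
  h001 := ⟨138976701120, 0, 0, 0⟩
  h002 := ⟨20233772544, 0, 0, 0⟩
  h003 := ⟨0, 227194918400, 0, 0⟩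
  h010 := ⟨0, 128692992, 0, 0⟩
  h011 := ⟨699945991616, 0, 0, 0⟩
  h012 := ⟨0, 2102219943168, 0, 0⟩
  h020 := ⟨0, 55367299328, 0, 0⟩
  h021 := ⟨4824371284288, 0, 0, 0⟩
  h030 := ⟨0, 530563540672, 0, 0⟩
  h100 := ⟨38346253248, 0, 0, 0⟩
  h101 := ⟨0, 42594457152, 0, 0⟩
  h102 := ⟨0, 20537175168, 0, 0⟩
  h110 := ⟨153709500864, 0, 0, 0⟩
  h111 := ⟨0, 188024172160, 0, 0⟩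
  h120 := ⟨1632830080, 0, 0, 0⟩
  h200 := ⟨0, 11945195904, 0, 0⟩
  h201 := ⟨3759430144, 0, 0, 0⟩
  h210 := ⟨0, 39819967424, 0, 0⟩
  h300 := ⟨1100389312, 0, 0, 0⟩
  h400 := ⟨0, 24035392, 0, 0⟩
  m000 := ⟨1093394300928, 0, 0, 0⟩
  m001 := ⟨0, 7323844608, 0, 0⟩
  m002 := ⟨286109925376, 0, 0, 0⟩
  m010 := ⟨5884215296, 0, 0, 0⟩
  m100 := ⟨134370361344, 0, 0, 0⟩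
  m101 := ⟨5203492864, 0, 0, 0⟩
  m110 := ⟨693430452224, 0, 0, 0⟩
  m200 := ⟨6119555072, 0, 0, 0⟩
  m300 := ⟨0, 2743468032, 0, 0⟩
  a00 := ⟨105426911232, 0, 0, 0⟩
  a01 := ⟨0, 10779230208, 0, 0⟩
  a02 := ⟨0, 1287948468224, 0, 0⟩
  a03 := ⟨2891512545280, 0, 0, 0⟩
  a10 := ⟨278304194560, 0, 0, 0⟩
  a11 := ⟨0, 1881002344448, 0, 0⟩
  b00 := ⟨96714752000, 0, 0, 0⟩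
  b01 := ⟨0, 52029685760, 0, 0⟩
  b02 := ⟨0, 796843704320, 0, 0⟩
  b03 := ⟨1726369628160, 0, 0, 0⟩
  b10 := ⟨274522243072, 0, 0, 0⟩
  b11 := ⟨0, 1636738400256, 0, 0⟩
  t00 := ⟨1059838427136, 0, 0, 0⟩
  t01 := ⟨1978067910656, 0, 0, 0⟩
  t02 := ⟨6681769607168, 0, 0, 0⟩
  t03 := ⟨0, 35018688954368, 0, 0⟩
  t10 := ⟨158300635136, 0, 0, 0⟩
  t11 := ⟨5923569205248, 0, 0, 0⟩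
  s00 := ⟨5231852912640, 0, 0, 0⟩
  s01 := ⟨9307300560896, 0, 0, 0⟩
  s02 := ⟨0, 40049360568320, 0, 0⟩
  s03 := ⟨145283680567296, 0, 0, 0⟩
  s10 := ⟨0, 1848147116032, 0, 0⟩
  s11 := ⟨30129178345472, 0, 0, 0⟩
  g00 := ⟨0, 0, 0, 0⟩
  g01 := ⟨0, 0, 0, 0⟩
  g10 := ⟨0, 0, 0, 0⟩
  g11 := ⟨0, 0, 0, 0⟩
  f00 := ⟨0, 0, 0, 0⟩
  f01 := ⟨0, 0, 0, 0⟩
  f10 := ⟨0, 0, 0, 0⟩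
  f11 := ⟨0, 0, 0, 0⟩
  l000 := ⟨0, 0, 0, 0⟩
  l001 := ⟨0, 0, 0, 0⟩
  l002 := ⟨0, 0, 0, 0⟩
  l010 := ⟨0, 0, 0, 0⟩
  l011 := ⟨0, 0, 0, 0⟩
  l020 := ⟨0, 0, 0, 0⟩
  l100 := ⟨0, 0, 0, 0⟩
  l101 := ⟨0, 0, 0, 0⟩
  l102 := ⟨0, 0, 0, 0⟩
  l110 := ⟨0, 0, 0, 0⟩
  l111 := ⟨0, 0, 0, 0⟩
  l120 := ⟨0, 0, 0, 0⟩
  l200 := ⟨0, 0, 0, 0⟩
  l201 := ⟨0, 0, 0, 0⟩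
  l210 := ⟨0, 0, 0, 0⟩
  l300 := ⟨0, 0, 0, 0⟩
  l301 := ⟨0, 0, 0, 0⟩
  l310 := ⟨0, 0, 0, 0⟩
  l400 := ⟨0, 0, 0, 0⟩
  l401 := ⟨0, 0, 0, 0⟩
  l410 := ⟨0, 0, 0, 0⟩
  l500 := ⟨0, 0, 0, 0⟩
  l600 := ⟨0, 0, 0, 0⟩
  l700 := ⟨0, 0, 0, 0⟩
  q00 := ⟨0, 0, 0, 0⟩
  q01 := ⟨0, 0, 0, 0⟩
  q02 := ⟨0, 0, 0, 0⟩
  q03 := ⟨0, 0, 0, 0⟩
  q10 := ⟨0, 0, 0, 0⟩
  q11 := ⟨0, 0, 0, 0⟩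
  q12 := ⟨0, 0, 0, 0⟩
  q20 := ⟨0, 0, 0, 0⟩
  q21 := ⟨0, 0, 0, 0⟩
  q30 := ⟨0, 0, 0, 0⟩
  n000 := ⟨0, 0, 0, 0⟩
  n001 := ⟨0, 0, 0, 0⟩
  n002 := ⟨0, 0, 0, 0⟩
  n010 := ⟨0, 0, 0, 0⟩
  n011 := ⟨0, 0, 0, 0⟩
  n020 := ⟨0, 0, 0, 0⟩
  n100 := ⟨0, 0, 0, 0⟩
  n101 := ⟨0, 0, 0, 0⟩
  n110 := ⟨0, 0, 0, 0⟩
  n200 := ⟨0, 0, 0, 0⟩
  n201 := ⟨0, 0, 0, 0⟩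
  n210 := ⟨0, 0, 0, 0⟩
  n300 := ⟨0, 0, 0, 0⟩
  n400 := ⟨0, 0, 0, 0⟩
  n500 := ⟨0, 0, 0, 0⟩
  e00 := ⟨0, 0, 0, 0⟩
  e01 := ⟨0, 0, 0, 0⟩
  e02 := ⟨0, 0, 0, 0⟩
  e03 := ⟨0, 0, 0, 0⟩
  e10 := ⟨0, 0, 0, 0⟩
  e11 := ⟨0, 0, 0, 0⟩
  B1 := 0

def p4 : Pm where
  ec := ⟨247497490432, 0, 0, 0⟩
  bc := ⟨0, 0, 0, 0⟩
  nn := ⟨5497558138880, 0, 0, 0⟩
  tj := ⟨13194139533312, 0, 0, 0⟩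
  ca := ⟨384936443904, 0, 0, 0⟩
  cb := ⟨329907175424, 0, 0, 0⟩
  cc := ⟨0, 0, 0, 0⟩
  ax := ⟨0, 0, 0, 0⟩
  ay := ⟨0, 0, 0, 0⟩
  xa := ⟨0, 0, 0, 0⟩
  C2 := ⟨0, 0, 0, 0⟩
  wr := ⟨0, 0, 0, 0⟩
  wi := ⟨0, 0, 0, 0⟩
  w1 := ⟨0, 0, 0, 0⟩
  h000 := ⟨0, 3362064960, 0, 0⟩
  h001 := ⟨138976701120, 0, 0, 0⟩
  h002 := ⟨20233772544, 0, 0, 0⟩
  h003 := ⟨0, 227194918400, 0, 0⟩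
  h010 := ⟨0, 128692992, 0, 0⟩
  h011 := ⟨699945991616, 0, 0, 0⟩
  h012 := ⟨0, 2102219943168, 0, 0⟩
  h020 := ⟨0, 55367299328, 0, 0⟩
  h021 := ⟨4824371284288, 0, 0, 0⟩
  h030 := ⟨0, 530563540672, 0, 0⟩
  h100 := ⟨38346253248, 0, 0, 0⟩
  h101 := ⟨0, 42594457152, 0, 0⟩
  h102 := ⟨0, 20537175168, 0, 0⟩
  h110 := ⟨153709500864, 0, 0, 0⟩
  h111 := ⟨0, 188024172160, 0, 0⟩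
  h120 := ⟨1632830080, 0, 0, 0⟩
  h200 := ⟨0, 11945195904, 0, 0⟩
  h201 := ⟨3759430144, 0, 0, 0⟩
  h210 := ⟨0, 39819967424, 0, 0⟩
  h300 := ⟨1100389312, 0, 0, 0⟩
  h400 := ⟨0, 24035392, 0, 0⟩
  m000 := ⟨1096221982720, 0, 0, 0⟩
  m001 := ⟨0, 4949344256, 0, 0⟩
  m002 := ⟨248929189888, 0, 0, 0⟩
  m010 := ⟨0, 15127805952, 0, 0⟩
  m100 := ⟨129556545536, 0, 0, 0⟩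
  m101 := ⟨5629214720, 0, 0, 0⟩
  m110 := ⟨692496891904, 0, 0, 0⟩
  m200 := ⟨9394061312, 0, 0, 0⟩
  m300 := ⟨0, 3461611520, 0, 0⟩
  a00 := ⟨96714752000, 0, 0, 0⟩
  a01 := ⟨0, 52029685760, 0, 0⟩
  a02 := ⟨0, 796843704320, 0, 0⟩
  a03 := ⟨1726369628160, 0, 0, 0⟩
  a10 := ⟨274522243072, 0, 0, 0⟩
  a11 := ⟨0, 1636738400256, 0, 0⟩
  b00 := ⟨88666144768, 0, 0, 0⟩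
  b01 := ⟨0, 93962043392, 0, 0⟩
  b02 := ⟨0, 183342202880, 0, 0⟩
  b03 := ⟨49563238400, 0, 0, 0⟩
  b10 := ⟨262527975424, 0, 0, 0⟩
  b11 := ⟨0, 1312226672640, 0, 0⟩
  t00 := ⟨973554778112, 0, 0, 0⟩
  t01 := ⟨1880689410048, 0, 0, 0⟩
  t02 := ⟨12779163222016, 0, 0, 0⟩
  t03 := ⟨0, 39474343837696, 0, 0⟩
  t10 := ⟨200882651136, 0, 0, 0⟩
  t11 := ⟨14915511058432, 0, 0, 0⟩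
  s00 := ⟨6291691339776, 0, 0, 0⟩
  s01 := ⟨11285368471552, 0, 0, 0⟩
  s02 := ⟨0, 33367590961152, 0, 0⟩
  s03 := ⟨110264991612928, 0, 0, 0⟩
  s10 := ⟨0, 1689846480896, 0, 0⟩
  s11 := ⟨36052747550720, 0, 0, 0⟩
  g00 := ⟨0, 0, 0, 0⟩
  g01 := ⟨0, 0, 0, 0⟩
  g10 := ⟨0, 0, 0, 0⟩
  g11 := ⟨0, 0, 0, 0⟩
  f00 := ⟨0, 0, 0, 0⟩
  f01 := ⟨0, 0, 0, 0⟩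
  f10 := ⟨0, 0, 0, 0⟩
  f11 := ⟨0, 0, 0, 0⟩
  l000 := ⟨0, 0, 0, 0⟩
  l001 := ⟨0, 0, 0, 0⟩
  l002 := ⟨0, 0, 0, 0⟩
  l010 := ⟨0, 0, 0, 0⟩
  l011 := ⟨0, 0, 0, 0⟩
  l020 := ⟨0, 0, 0, 0⟩
  l100 := ⟨0, 0, 0, 0⟩
  l101 := ⟨0, 0, 0, 0⟩
  l102 := ⟨0, 0, 0, 0⟩
  l110 := ⟨0, 0, 0, 0⟩
  l111 := ⟨0, 0, 0, 0⟩
  l120 := ⟨0, 0, 0, 0⟩
  l200 := ⟨0, 0, 0, 0⟩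
  l201 := ⟨0, 0, 0, 0⟩
  l210 := ⟨0, 0, 0, 0⟩
  l300 := ⟨0, 0, 0, 0⟩
  l301 := ⟨0, 0, 0, 0⟩
  l310 := ⟨0, 0, 0, 0⟩
  l400 := ⟨0, 0, 0, 0⟩
  l401 := ⟨0, 0, 0, 0⟩
  l410 := ⟨0, 0, 0, 0⟩
  l500 := ⟨0, 0, 0, 0⟩
  l600 := ⟨0, 0, 0, 0⟩
  l700 := ⟨0, 0, 0, 0⟩
  q00 := ⟨0, 0, 0, 0⟩
  q01 := ⟨0, 0, 0, 0⟩
  q02 := ⟨0, 0, 0, 0⟩
  q03 := ⟨0, 0, 0, 0⟩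
  q10 := ⟨0, 0, 0, 0⟩
  q11 := ⟨0, 0, 0, 0⟩
  q12 := ⟨0, 0, 0, 0⟩
  q20 := ⟨0, 0, 0, 0⟩
  q21 := ⟨0, 0, 0, 0⟩
  q30 := ⟨0, 0, 0, 0⟩
  n000 := ⟨0, 0, 0, 0⟩
  n001 := ⟨0, 0, 0, 0⟩
  n002 := ⟨0, 0, 0, 0⟩
  n010 := ⟨0, 0, 0, 0⟩
  n011 := ⟨0, 0, 0, 0⟩
  n020 := ⟨0, 0, 0, 0⟩
  n100 := ⟨0, 0, 0, 0⟩
  n101 := ⟨0, 0, 0, 0⟩
  n110 := ⟨0, 0, 0, 0⟩
  n200 := ⟨0, 0, 0, 0⟩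
  n201 := ⟨0, 0, 0, 0⟩
  n210 := ⟨0, 0, 0, 0⟩
  n300 := ⟨0, 0, 0, 0⟩
  n400 := ⟨0, 0, 0, 0⟩
  n500 := ⟨0, 0, 0, 0⟩
  e00 := ⟨0, 0, 0, 0⟩
  e01 := ⟨0, 0, 0, 0⟩
  e02 := ⟨0, 0, 0, 0⟩
  e03 := ⟨0, 0, 0, 0⟩
  e10 := ⟨0, 0, 0, 0⟩
  e11 := ⟨0, 0, 0, 0⟩
  B1 := 0

def p5 : Pm where
  ec := ⟨247497490432, 0, 0, 0⟩
  bc := ⟨0, 0, 0, 0⟩
  nn := ⟨6597069766656, 0, 0, 0⟩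
  tj := ⟨15393162788864, 0, 0, 0⟩
  ca := ⟨329907175424, 0, 0, 0⟩
  cb := ⟨274877906944, 0, 0, 0⟩
  cc := ⟨0, 0, 0, 0⟩
  ax := ⟨0, 0, 0, 0⟩
  ay := ⟨0, 0, 0, 0⟩
  xa := ⟨0, 0, 0, 0⟩
  C2 := ⟨0, 0, 0, 0⟩
  wr := ⟨0, 0, 0, 0⟩
  wi := ⟨0, 0, 0, 0⟩
  w1 := ⟨0, 0, 0, 0⟩
  h000 := ⟨0, 3362064960, 0, 0⟩
  h001 := ⟨138976701120, 0, 0, 0⟩
  h002 := ⟨20233772544, 0, 0, 0⟩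
  h003 := ⟨0, 227194918400, 0, 0⟩
  h010 := ⟨0, 128692992, 0, 0⟩
  h011 := ⟨699945991616, 0, 0, 0⟩
  h012 := ⟨0, 2102219943168, 0, 0⟩
  h020 := ⟨0, 55367299328, 0, 0⟩
  h021 := ⟨4824371284288, 0, 0, 0⟩
  h030 := ⟨0, 530563540672, 0, 0⟩
  h100 := ⟨38346253248, 0, 0, 0⟩
  h101 := ⟨0, 42594457152, 0, 0⟩
  h102 := ⟨0, 20537175168, 0, 0⟩
  h110 := ⟨153709500864, 0, 0, 0⟩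
  h111 := ⟨0, 188024172160, 0, 0⟩
  h120 := ⟨1632830080, 0, 0, 0⟩
  h200 := ⟨0, 11945195904, 0, 0⟩
  h201 := ⟨3759430144, 0, 0, 0⟩
  h210 := ⟨0, 39819967424, 0, 0⟩
  h300 := ⟨1100389312, 0, 0, 0⟩
  h400 := ⟨0, 24035392, 0, 0⟩
  m000 := ⟨1098206216192, 0, 0, 0⟩
  m001 := ⟨0, 8749318144, 0, 0⟩
  m002 := ⟨246064152576, 0, 0, 0⟩
  m010 := ⟨0, 34524233728, 0, 0⟩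
  m100 := ⟨126502502400, 0, 0, 0⟩
  m101 := ⟨6862405632, 0, 0, 0⟩
  m110 := ⟨696491638784, 0, 0, 0⟩
  m200 := ⟨11600396288, 0, 0, 0⟩
  m300 := ⟨0, 3999465472, 0, 0⟩
  a00 := ⟨88666144768, 0, 0, 0⟩
  a01 := ⟨0, 93962043392, 0, 0⟩
  a02 := ⟨0, 183342202880, 0, 0⟩
  a03 := ⟨49563238400, 0, 0, 0⟩
  a10 := ⟨262527975424, 0, 0, 0⟩
  a11 := ⟨0, 1312226672640, 0, 0⟩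
  b00 := ⟨80706797568, 0, 0, 0⟩
  b01 := ⟨0, 107799773184, 0, 0⟩
  b02 := ⟨110224015360, 0, 0, 0⟩
  b03 := ⟨0, 421768134656, 0, 0⟩
  b10 := ⟨262567100416, 0, 0, 0⟩
  b11 := ⟨0, 1140258373632, 0, 0⟩
  t00 := ⟨893433217024, 0, 0, 0⟩
  t01 := ⟨1611349950464, 0, 0, 0⟩
  t02 := ⟨19783846264832, 0, 0, 0⟩
  t03 := ⟨0, 41867421351936, 0, 0⟩
  t10 := ⟨237773848576, 0, 0, 0⟩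
  t11 := ⟨23807465684992, 0, 0, 0⟩
  s00 := ⟨7265246117888, 0, 0, 0⟩
  s01 := ⟨13166057881600, 0, 0, 0⟩
  s02 := ⟨0, 20588427739136, 0, 0⟩
  s03 := ⟨70790647775232, 0, 0, 0⟩
  s10 := ⟨0, 1488963829760, 0, 0⟩
  s11 := ⟨50968258609152, 0, 0, 0⟩
  g00 := ⟨0, 0, 0, 0⟩
  g01 := ⟨0, 0, 0, 0⟩
  g10 := ⟨0, 0, 0, 0⟩
  g11 := ⟨0, 0, 0, 0⟩
  f00 := ⟨0, 0, 0, 0⟩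
  f01 := ⟨0, 0, 0, 0⟩
  f10 := ⟨0, 0, 0, 0⟩
  f11 := ⟨0, 0, 0, 0⟩
  l000 := ⟨0, 0, 0, 0⟩
  l001 := ⟨0, 0, 0, 0⟩
  l002 := ⟨0, 0, 0, 0⟩
  l010 := ⟨0, 0, 0, 0⟩
  l011 := ⟨0, 0, 0, 0⟩
  l020 := ⟨0, 0, 0, 0⟩
  l100 := ⟨0, 0, 0, 0⟩
  l101 := ⟨0, 0, 0, 0⟩
  l102 := ⟨0, 0, 0, 0⟩
  l110 := ⟨0, 0, 0, 0⟩
  l111 := ⟨0, 0, 0, 0⟩
  l120 := ⟨0, 0, 0, 0⟩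
  l200 := ⟨0, 0, 0, 0⟩
  l201 := ⟨0, 0, 0, 0⟩
  l210 := ⟨0, 0, 0, 0⟩
  l300 := ⟨0, 0, 0, 0⟩
  l301 := ⟨0, 0, 0, 0⟩
  l310 := ⟨0, 0, 0, 0⟩
  l400 := ⟨0, 0, 0, 0⟩
  l401 := ⟨0, 0, 0, 0⟩
  l410 := ⟨0, 0, 0, 0⟩
  l500 := ⟨0, 0, 0, 0⟩
  l600 := ⟨0, 0, 0, 0⟩
  l700 := ⟨0, 0, 0, 0⟩
  q00 := ⟨0, 0, 0, 0⟩
  q01 := ⟨0, 0, 0, 0⟩
  q02 := ⟨0, 0, 0, 0⟩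
  q03 := ⟨0, 0, 0, 0⟩
  q10 := ⟨0, 0, 0, 0⟩
  q11 := ⟨0, 0, 0, 0⟩
  q12 := ⟨0, 0, 0, 0⟩
  q20 := ⟨0, 0, 0, 0⟩
  q21 := ⟨0, 0, 0, 0⟩
  q30 := ⟨0, 0, 0, 0⟩
  n000 := ⟨0, 0, 0, 0⟩
  n001 := ⟨0, 0, 0, 0⟩
  n002 := ⟨0, 0, 0, 0⟩
  n010 := ⟨0, 0, 0, 0⟩
  n011 := ⟨0, 0, 0, 0⟩
  n020 := ⟨0, 0, 0, 0⟩
  n100 := ⟨0, 0, 0, 0⟩
  n101 := ⟨0, 0, 0, 0⟩
  n110 := ⟨0, 0, 0, 0⟩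
  n200 := ⟨0, 0, 0, 0⟩
  n201 := ⟨0, 0, 0, 0⟩
  n210 := ⟨0, 0, 0, 0⟩
  n300 := ⟨0, 0, 0, 0⟩
  n400 := ⟨0, 0, 0, 0⟩
  n500 := ⟨0, 0, 0, 0⟩
  e00 := ⟨0, 0, 0, 0⟩
  e01 := ⟨0, 0, 0, 0⟩
  e02 := ⟨0, 0, 0, 0⟩
  e03 := ⟨0, 0, 0, 0⟩
  e10 := ⟨0, 0, 0, 0⟩
  e11 := ⟨0, 0, 0, 0⟩
  B1 := 0

def p6 : Pm where
  ec := ⟨247497490432, 0, 0, 0⟩
  bc := ⟨0, 0, 0, 0⟩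
  nn := ⟨7696581394432, 0, 0, 0⟩
  tj := ⟨17592186044416, 0, 0, 0⟩
  ca := ⟨274877906944, 0, 0, 0⟩
  cb := ⟨0, 0, 0, 0⟩
  cc := ⟨0, 0, 0, 0⟩
  ax := ⟨2308974418944, 0, 0, 0⟩
  ay := ⟨91625969664, 0, 0, 0⟩
  xa := ⟨4288095348224, 0, 0, 0⟩
  C2 := ⟨1327712154624, 0, 0, 0⟩
  wr := ⟨0, 0, 0, 0⟩
  wi := ⟨0, 0, 0, 0⟩
  w1 := ⟨0, 0, 0, 0⟩
  h000 := ⟨0, 3362064960, 0, 0⟩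
  h001 := ⟨138976701120, 0, 0, 0⟩
  h002 := ⟨20233772544, 0, 0, 0⟩
  h003 := ⟨0, 227194918400, 0, 0⟩
  h010 := ⟨0, 128692992, 0, 0⟩
  h011 := ⟨699945991616, 0, 0, 0⟩
  h012 := ⟨0, 2102219943168, 0, 0⟩
  h020 := ⟨0, 55367299328, 0, 0⟩
  h021 := ⟨4824371284288, 0, 0, 0⟩
  h030 := ⟨0, 530563540672, 0, 0⟩
  h100 := ⟨38346253248, 0, 0, 0⟩
  h101 := ⟨0, 42594457152, 0, 0⟩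
  h102 := ⟨0, 20537175168, 0, 0⟩
  h110 := ⟨153709500864, 0, 0, 0⟩
  h111 := ⟨0, 188024172160, 0, 0⟩
  h120 := ⟨1632830080, 0, 0, 0⟩
  h200 := ⟨0, 11945195904, 0, 0⟩
  h201 := ⟨3759430144, 0, 0, 0⟩
  h210 := ⟨0, 39819967424, 0, 0⟩
  h300 := ⟨1100389312, 0, 0, 0⟩
  h400 := ⟨0, 24035392, 0, 0⟩
  m000 := ⟨1100452397056, 0, 0, 0⟩
  m001 := ⟨0, 12562726912, 0, 0⟩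
  m002 := ⟨194255716352, 0, 0, 0⟩
  m010 := ⟨0, 76074909696, 0, 0⟩
  m100 := ⟨118240313344, 0, 0, 0⟩
  m101 := ⟨10749280256, 0, 0, 0⟩
  m110 := ⟨708772429824, 0, 0, 0⟩
  m200 := ⟨19175112704, 0, 0, 0⟩
  m300 := ⟨0, 6100418560, 0, 0⟩
  a00 := ⟨80706797568, 0, 0, 0⟩
  a01 := ⟨0, 107799773184, 0, 0⟩
  a02 := ⟨110224015360, 0, 0, 0⟩
  a03 := ⟨0, 421768134656, 0, 0⟩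
  a10 := ⟨262567100416, 0, 0, 0⟩
  a11 := ⟨0, 1140258373632, 0, 0⟩
  b00 := ⟨0, 0, 0, 0⟩
  b01 := ⟨0, 0, 0, 0⟩
  b02 := ⟨0, 0, 0, 0⟩
  b03 := ⟨0, 0, 0, 0⟩
  b10 := ⟨0, 0, 0, 0⟩
  b11 := ⟨0, 0, 0, 0⟩
  t00 := ⟨817299324928, 0, 0, 0⟩
  t01 := ⟨1708479021056, 0, 0, 0⟩
  t02 := ⟨21519761997824, 0, 0, 0⟩
  t03 := ⟨0, 15726872690688, 0, 0⟩
  t10 := ⟨223244451840, 0, 0, 0⟩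
  t11 := ⟨34827306467328, 0, 0, 0⟩
  s00 := ⟨8158679334912, 0, 0, 0⟩
  s01 := ⟨14777407832064, 0, 0, 0⟩
  s02 := ⟨0, 804581474304, 0, 0⟩
  s03 := ⟨28923226423296, 0, 0, 0⟩
  s10 := ⟨0, 1251189981184, 0, 0⟩
  s11 := ⟨74775724294144, 0, 0, 0⟩
  g00 := ⟨0, 0, 0, 0⟩
  g01 := ⟨0, 0, 0, 0⟩
  g10 := ⟨0, 0, 0, 0⟩
  g11 := ⟨0, 0, 0, 0⟩
  f00 := ⟨0, 0, 0, 0⟩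
  f01 := ⟨0, 0, 0, 0⟩
  f10 := ⟨0, 0, 0, 0⟩
  f11 := ⟨0, 0, 0, 0⟩
  l000 := ⟨0, 0, 0, 0⟩
  l001 := ⟨0, 0, 0, 0⟩
  l002 := ⟨0, 0, 0, 0⟩
  l010 := ⟨0, 0, 0, 0⟩
  l011 := ⟨0, 0, 0, 0⟩
  l020 := ⟨0, 0, 0, 0⟩
  l100 := ⟨0, 0, 0, 0⟩
  l101 := ⟨0, 0, 0, 0⟩
  l102 := ⟨0, 0, 0, 0⟩
  l110 := ⟨0, 0, 0, 0⟩
  l111 := ⟨0, 0, 0, 0⟩
  l120 := ⟨0, 0, 0, 0⟩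
  l200 := ⟨0, 0, 0, 0⟩
  l201 := ⟨0, 0, 0, 0⟩
  l210 := ⟨0, 0, 0, 0⟩
  l300 := ⟨0, 0, 0, 0⟩
  l301 := ⟨0, 0, 0, 0⟩
  l310 := ⟨0, 0, 0, 0⟩
  l400 := ⟨0, 0, 0, 0⟩
  l401 := ⟨0, 0, 0, 0⟩
  l410 := ⟨0, 0, 0, 0⟩
  l500 := ⟨0, 0, 0, 0⟩
  l600 := ⟨0, 0, 0, 0⟩
  l700 := ⟨0, 0, 0, 0⟩
  q00 := ⟨0, 0, 0, 0⟩
  q01 := ⟨0, 0, 0, 0⟩
  q02 := ⟨0, 0, 0, 0⟩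
  q03 := ⟨0, 0, 0, 0⟩
  q10 := ⟨0, 0, 0, 0⟩
  q11 := ⟨0, 0, 0, 0⟩
  q12 := ⟨0, 0, 0, 0⟩
  q20 := ⟨0, 0, 0, 0⟩
  q21 := ⟨0, 0, 0, 0⟩
  q30 := ⟨0, 0, 0, 0⟩
  n000 := ⟨0, 0, 0, 0⟩
  n001 := ⟨0, 0, 0, 0⟩
  n002 := ⟨0, 0, 0, 0⟩
  n010 := ⟨0, 0, 0, 0⟩
  n011 := ⟨0, 0, 0, 0⟩
  n020 := ⟨0, 0, 0, 0⟩
  n100 := ⟨0, 0, 0, 0⟩
  n101 := ⟨0, 0, 0, 0⟩
  n110 := ⟨0, 0, 0, 0⟩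
  n200 := ⟨0, 0, 0, 0⟩
  n201 := ⟨0, 0, 0, 0⟩
  n210 := ⟨0, 0, 0, 0⟩
  n300 := ⟨0, 0, 0, 0⟩
  n400 := ⟨0, 0, 0, 0⟩
  n500 := ⟨0, 0, 0, 0⟩
  e00 := ⟨0, 0, 0, 0⟩
  e01 := ⟨0, 0, 0, 0⟩
  e02 := ⟨0, 0, 0, 0⟩
  e03 := ⟨0, 0, 0, 0⟩
  e10 := ⟨0, 0, 0, 0⟩
  e11 := ⟨0, 0, 0, 0⟩
  B1 := 659706347520

def pF : Pm where
  ec := ⟨247497490432, 0, 0, 0⟩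
  bc := ⟨0, 0, 0, 0⟩
  nn := ⟨0, 0, 0, 0⟩
  tj := ⟨2199023255552, 0, 0, 0⟩
  ca := ⟨1099511627776, 0, 0, 0⟩
  cb := ⟨0, 0, 0, 0⟩
  cc := ⟨879662989312, 0, 0, 0⟩
  ax := ⟨0, 0, 0, 0⟩
  ay := ⟨0, 0, 0, 0⟩
  xa := ⟨0, 0, 0, 0⟩
  C2 := ⟨0, 0, 0, 0⟩
  wr := ⟨0, 0, 0, 0⟩
  wi := ⟨0, 0, 0, 0⟩
  w1 := ⟨0, 0, 0, 0⟩
  h000 := ⟨0, 3362064960, 0, 0⟩
  h001 := ⟨138976701120, 0, 0, 0⟩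
  h002 := ⟨20233772544, 0, 0, 0⟩
  h003 := ⟨0, 227194918400, 0, 0⟩
  h010 := ⟨0, 128692992, 0, 0⟩
  h011 := ⟨699945991616, 0, 0, 0⟩
  h012 := ⟨0, 2102219943168, 0, 0⟩
  h020 := ⟨0, 55367299328, 0, 0⟩
  h021 := ⟨4824371284288, 0, 0, 0⟩
  h030 := ⟨0, 530563540672, 0, 0⟩
  h100 := ⟨38346253248, 0, 0, 0⟩
  h101 := ⟨0, 42594457152, 0, 0⟩
  h102 := ⟨0, 20537175168, 0, 0⟩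
  h110 := ⟨153709500864, 0, 0, 0⟩
  h111 := ⟨0, 188024172160, 0, 0⟩
  h120 := ⟨1632830080, 0, 0, 0⟩
  h200 := ⟨0, 11945195904, 0, 0⟩
  h201 := ⟨3759430144, 0, 0, 0⟩
  h210 := ⟨0, 39819967424, 0, 0⟩
  h300 := ⟨1100389312, 0, 0, 0⟩
  h400 := ⟨0, 24035392, 0, 0⟩
  m000 := ⟨0, 0, 0, 0⟩
  m001 := ⟨0, 0, 0, 0⟩
  m002 := ⟨0, 0, 0, 0⟩
  m010 := ⟨0, 0, 0, 0⟩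
  m100 := ⟨0, 0, 0, 0⟩
  m101 := ⟨0, 0, 0, 0⟩
  m110 := ⟨0, 0, 0, 0⟩
  m200 := ⟨0, 0, 0, 0⟩
  m300 := ⟨0, 0, 0, 0⟩
  a00 := ⟨135654277120, 0, 0, 0⟩
  a01 := ⟨145134190592, 0, 0, 0⟩
  a02 := ⟨0, 2405794316288, 0, 0⟩
  a03 := ⟨4108283936768, 0, 0, 0⟩
  a10 := ⟨304065216512, 0, 0, 0⟩
  a11 := ⟨0, 3094467051520, 0, 0⟩
  b00 := ⟨0, 0, 0, 0⟩
  b01 := ⟨0, 0, 0, 0⟩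
  b02 := ⟨0, 0, 0, 0⟩
  b03 := ⟨0, 0, 0, 0⟩
  b10 := ⟨0, 0, 0, 0⟩
  b11 := ⟨0, 0, 0, 0⟩
  t00 := ⟨1457469652992, 0, 0, 0⟩
  t01 := ⟨3182259404800, 0, 0, 0⟩
  t02 := ⟨3922408570880, 0, 0, 0⟩
  t03 := ⟨0, 7474799771648, 0, 0⟩
  t10 := ⟨0, 100585570304, 0, 0⟩
  t11 := ⟨17090918744064, 0, 0, 0⟩
  s00 := ⟨0, 0, 0, 0⟩
  s01 := ⟨0, 0, 0, 0⟩
  s02 := ⟨0, 0, 0, 0⟩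
  s03 := ⟨0, 0, 0, 0⟩
  s10 := ⟨0, 0, 0, 0⟩
  s11 := ⟨0, 0, 0, 0⟩
  g00 := ⟨0, 0, 0, 0⟩
  g01 := ⟨0, 0, 0, 0⟩
  g10 := ⟨0, 0, 0, 0⟩
  g11 := ⟨0, 0, 0, 0⟩
  f00 := ⟨0, 0, 0, 0⟩
  f01 := ⟨0, 0, 0, 0⟩
  f10 := ⟨0, 0, 0, 0⟩
  f11 := ⟨0, 0, 0, 0⟩
  l000 := ⟨4075373523520, 0, 0, 0⟩
  l001 := ⟨0, 33348583744, 0, 0⟩
  l002 := ⟨0, 353170793472, 0, 0⟩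
  l010 := ⟨5345990883392, 0, 0, 0⟩
  l011 := ⟨0, 1383927223488, 0, 0⟩
  l020 := ⟨0, 46898054306560, 0, 0⟩
  l100 := ⟨0, 1282333050944, 0, 0⟩
  l101 := ⟨99383576128, 0, 0, 0⟩
  l102 := ⟨0, 118473405632, 0, 0⟩
  l110 := ⟨0, 21548860646144, 0, 0⟩
  l111 := ⟨1631603895296, 0, 0, 0⟩
  l120 := ⟨0, 11316096429696, 0, 0⟩
  l200 := ⟨0, 1805920549824, 0, 0⟩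
  l201 := ⟨0, 133052520896, 0, 0⟩
  l210 := ⟨10625646379072, 0, 0, 0⟩
  l300 := ⟨3889376605952, 0, 0, 0⟩
  l301 := ⟨120829096320, 0, 0, 0⟩
  l310 := ⟨0, 2828804420736, 0, 0⟩
  l400 := ⟨0, 5610667508864, 0, 0⟩
  l401 := ⟨0, 67749198976, 0, 0⟩
  l410 := ⟨14910246207168, 0, 0, 0⟩
  l500 := ⟨6552486992192, 0, 0, 0⟩
  l600 := ⟨0, 4065460271296, 0, 0⟩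
  l700 := ⟨1782963840000, 0, 0, 0⟩
  q00 := ⟨26767530240, 0, 0, 0⟩
  q01 := ⟨914678829440, 0, 0, 0⟩
  q02 := ⟨66575348480, 0, 0, 0⟩
  q03 := ⟨1055342699072, 0, 0, 0⟩
  q10 := ⟨734048364160, 0, 0, 0⟩
  q11 := ⟨2586208078272, 0, 0, 0⟩
  q12 := ⟨0, 11947217589056, 0, 0⟩
  q20 := ⟨0, 43400140506240, 0, 0⟩
  q21 := ⟨114283589162240, 0, 0, 0⟩
  q30 := ⟨1062463076402048, 0, 0, 0⟩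
  n000 := ⟨1076758249472, 0, 0, 0⟩
  n001 := ⟨0, 37576441856, 0, 0⟩
  n002 := ⟨460461572096, 0, 0, 0⟩
  n010 := ⟨0, 349139763200, 0, 0⟩
  n011 := ⟨162490744832, 0, 0, 0⟩
  n020 := ⟨41332178944, 0, 0, 0⟩
  n100 := ⟨586613587968, 0, 0, 0⟩
  n101 := ⟨17877368832, 0, 0, 0⟩
  n110 := ⟨4137020227584, 0, 0, 0⟩
  n200 := ⟨790775595008, 0, 0, 0⟩
  n201 := ⟨0, 57169739776, 0, 0⟩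
  n210 := ⟨0, 7972150378496, 0, 0⟩
  n300 := ⟨0, 2168698634240, 0, 0⟩
  n400 := ⟨1864822292480, 0, 0, 0⟩
  n500 := ⟨0, 871969718272, 0, 0⟩
  e00 := ⟨154861830144, 0, 0, 0⟩
  e01 := ⟨543323258880, 0, 0, 0⟩
  e02 := ⟨0, 558276542464, 0, 0⟩
  e03 := ⟨0, 6942527062016, 0, 0⟩
  e10 := ⟨300063916032, 0, 0, 0⟩
  e11 := ⟨0, 3908070866944, 0, 0⟩
  B1 := 0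

end Pool.Agent.helper12.KA
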