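import Pool.Agent.helper12.GP.MAP
import Pool.Agent.helper12.GP.MBP
import Pool.Agent.helper12.KA.P

/-!
Generated certificates.
-/

namespace Pool.Agent.helper12.KA

open Pool.Agent.helper31.IX (Cov cov_split)
open Pool.Agent.helper12.GP
open Pool.Agent.helper14.QF (cov_E)

mutual
theorem N0A_t3 : Cov 1 (MA.prog0 p0) [(247390011392, 27487895552), (19327352832, 19327352832), (549755813888, 549755813888)] :=
  cov_E (MA.chkB0_eq p0) (.n 2 (.n 2 (.n 2 (.n 2 .l .l) (.n 2 .l .l)) (.n 2 (.n 2 .l .l) (.n 0 .l .l))) (.n 1 (.n 2 (.n 0 .l .l) .l) (.n 2 (.n 0 .l .l) .l)))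
    [(247390011392, 27487895552), (19327352832, 19327352832), (549755813888, 549755813888)] rfl (by decide +kernel)
theorem N0A_t4 : Cov 1 (MA.prog0 p0) [(247390011392, 27487895552), (57982058496, 19327352832), (549755813888, 549755813888)] :=
  cov_E (MA.chkB0_eq p0) (.n 2 (.n 2 (.n 2 (.n 2 .l .l) (.n 2 .l .l)) (.n 2 (.n 2 .l .l) (.n 0 .l .l))) (.n 0 (.n 1 (.n 2 .l .l) (.n 2 .l .l)) (.n 2 (.n 2 .l .l) (.n 1 .l .l))))
    [(247390011392, 27487895552), (57982058496, 19327352832), (549755813888, 549755813888)] rfl (by decide +kernel)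
end

mutual
theorem N0A_t5 : Cov 1 (MA.prog0 p0) [(247390011392, 27487895552), (96636764160, 19327352832), (549755813888, 549755813888)] :=
  cov_E (MA.chkB0_eq p0) (.n 2 (.n 2 (.n 0 (.n 2 .l .l) (.n 2 (.n 2 .l .l) (.n 1 .l .l))) (.n 1 (.n 2 .l .l) (.n 2 .l .l))) (.n 1 (.n 2 (.n 2 .l .l) (.n 0 .l .l)) (.n 2 (.n 2 .l .l) (.n 0 .l .l))))
    [(247390011392, 27487895552), (96636764160, 19327352832), (549755813888, 549755813888)] rfl (by decide +kernel)
theorem N0A_t6 : Cov 1 (MA.prog0 p0) [(247390011392, 27487895552), (135291469824, 19327352832), (549755813888, 549755813888)] :=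
  cov_E (MA.chkB0_eq p0) (.n 1 (.n 2 (.n 2 (.n 2 (.n 2 .l .l) (.n 0 .l .l)) (.n 0 (.n 2 .l .l) (.n 2 .l .l))) (.n 2 (.n 2 .l .l) (.n 0 .l .l))) (.n 2 (.n 2 (.n 2 (.n 2 .l .l) (.n 0 .l .l)) (.n 0 (.n 2 .l .l) (.n 2 .l .l))) (.n 2 (.n 2 .l .l) (.n 2 .l .l))))
    [(247390011392, 27487895552), (135291469824, 19327352832), (549755813888, 549755813888)] rfl (by decide +kernel)
end

mutual
theorem N0B0_t3 : Cov 1 (MB.prog0 p0) [(247390011392, 27487895552), (13743947776, 13743947776), (549755813888, 549755813888)] :=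
  cov_E (MB.chkB0_eq p0) (.n 2 (.n 2 (.n 2 .l .l) (.n 0 (.n 1 .l .l) (.n 1 .l .l))) (.n 1 (.n 0 (.n 2 .l .l) (.n 2 .l .l)) (.n 2 (.n 2 .l .l) (.n 1 .l .l))))
    [(247390011392, 27487895552), (13743947776, 13743947776), (549755813888, 549755813888)] rfl (by decide +kernel)
theorem N0B0_t4 : Cov 1 (MB.prog0 p0) [(247390011392, 27487895552), (41231843328, 13743947776), (549755813888, 549755813888)] :=
  cov_E (MB.chkB0_eq p0) (.n 2 (.n 2 (.n 2 .l .l) (.n 0 (.n 1 .l .l) (.n 2 .l .l))) (.n 1 (.n 2 (.n 2 .l .l) (.n 2 .l .l)) (.n 2 (.n 2 .l .l) (.n 0 (.n 1 .l .l) (.n 1 .l .l)))))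
    [(247390011392, 27487895552), (41231843328, 13743947776), (549755813888, 549755813888)] rfl (by decide +kernel)
end

mutual
theorem N0B0_t5 : Cov 1 (MB.prog0 p0) [(247390011392, 27487895552), (68719738880, 13743947776), (549755813888, 549755813888)] :=
  cov_E (MB.chkB0_eq p0) (.n 2 (.n 2 (.n 2 .l .l) (.n 1 (.n 2 .l .l) (.n 2 .l .l))) (.n 1 (.n 2 (.n 2 .l .l) (.n 0 (.n 1 .l .l) (.n 2 .l .l))) (.n 2 (.n 2 .l (.n 0 .l .l)) (.n 0 (.n 1 .l .l) (.n 2 .l .l)))))
    [(247390011392, 27487895552), (68719738880, 13743947776), (549755813888, 549755813888)] rfl (by decide +kernel)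
theorem N0B0_t6 : Cov 1 (MB.prog0 p0) [(247390011392, 27487895552), (96207634432, 13743947776), (549755813888, 549755813888)] :=
  cov_E (MB.chkB0_eq p0) (.n 2 (.n 2 (.n 2 .l .l) (.n 1 (.n 2 .l .l) (.n 2 .l .l))) (.n 1 (.n 2 (.n 2 .l (.n 0 .l .l)) (.n 0 (.n 2 .l .l) (.n 2 .l .l))) (.n 2 (.n 2 .l (.n 0 .l .l)) (.n 0 (.n 2 .l .l) (.n 2 .l .l)))))
    [(247390011392, 27487895552), (96207634432, 13743947776), (549755813888, 549755813888)] rfl (by decide +kernel)
end

mutual
theorem N0B1_t1 : Cov 1 (MB.prog0 p0) [(247390011392, 27487895552), (123694743552, 13744209920), (386547056640, 386547056640)] :=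
  cov_E (MB.chkB0_eq p0) (.n 2 (.n 2 (.n 0 .l .l) (.n 2 .l .l)) (.n 1 (.n 2 (.n 0 .l .l) (.n 2 .l .l)) (.n 2 (.n 0 .l .l) (.n 2 .l .l))))
    [(247390011392, 27487895552), (123694743552, 13744209920), (386547056640, 386547056640)] rfl (by decide +kernel)
theorem N0B1_t2 : Cov 1 (MB.prog0 p0) [(247390011392, 27487895552), (151183163392, 13744209920), (386547056640, 386547056640)] :=
  cov_E (MB.chkB0_eq p0) (.n 2 (.n 2 (.n 2 .l .l) (.n 2 .l (.n 0 .l .l))) (.n 1 (.n 2 (.n 2 .l .l) (.n 2 .l .l)) (.n 2 (.n 2 .l .l) (.n 2 .l (.n 0 .l .l)))))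
    [(247390011392, 27487895552), (151183163392, 13744209920), (386547056640, 386547056640)] rfl (by decide +kernel)
end

mutual
theorem N1A_t3 : Cov 1 (MA.prog0 p1) [(247390011392, 27487895552), (19327352832, 19327352832), (549755813888, 549755813888)] :=
  cov_E (MA.chkB0_eq p1) (.n 2 (.n 2 (.n 2 (.n 1 .l .l) (.n 2 .l .l)) (.n 2 (.n 2 .l .l) (.n 0 .l .l))) (.n 1 (.n 2 (.n 0 .l .l) .l) (.n 0 (.n 2 .l .l) (.n 2 .l .l))))
    [(247390011392, 27487895552), (19327352832, 19327352832), (549755813888, 549755813888)] rfl (by decide +kernel)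
theorem N1A_t4 : Cov 1 (MA.prog0 p1) [(247390011392, 27487895552), (57982058496, 19327352832), (549755813888, 549755813888)] :=
  cov_E (MA.chkB0_eq p1) (.n 2 (.n 2 (.n 2 (.n 1 .l .l) (.n 0 .l (.n 2 .l .l))) (.n 0 (.n 2 .l .l) (.n 2 (.n 1 .l .l) .l))) (.n 0 (.n 1 (.n 2 .l .l) (.n 2 .l .l)) (.n 2 (.n 2 .l .l) (.n 1 .l .l))))
    [(247390011392, 27487895552), (57982058496, 19327352832), (549755813888, 549755813888)] rfl (by decide +kernel)
end

mutual
theorem N1A_t5 : Cov 1 (MA.prog0 p1) [(247390011392, 27487895552), (96636764160, 19327352832), (549755813888, 549755813888)] :=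
  cov_E (MA.chkB0_eq p1) (.n 2 (.n 2 (.n 0 (.n 0 (.n 2 .l .l) (.n 2 .l .l)) (.n 2 (.n 2 .l .l) (.n 1 .l .l))) (.n 2 (.n 0 .l (.n 1 .l .l)) (.n 1 .l .l))) (.n 1 (.n 2 (.n 2 .l .l) (.n 0 .l .l)) (.n 2 (.n 2 .l .l) (.n 0 .l .l))))
    [(247390011392, 27487895552), (96636764160, 19327352832), (549755813888, 549755813888)] rfl (by decide +kernel)
theorem N1A_t7 : Cov 1 (MA.prog0 p1) [(247390011392, 27487895552), (125627793408, 9663676416), (549755813888, 549755813888)] :=
  cov_E (MA.chkB0_eq p1) (.n 2 (.n 2 (.n 2 (.n 2 .l .l) (.n 0 .l .l)) (.n 0 (.n 2 .l .l) (.n 2 .l .l))) (.n 2 (.n 2 .l .l) (.n 0 .l .l)))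
    [(247390011392, 27487895552), (125627793408, 9663676416), (549755813888, 549755813888)] rfl (by decide +kernel)
end

mutual
theorem N1A_t8 : Cov 1 (MA.prog0 p1) [(247390011392, 27487895552), (144955146240, 9663676416), (549755813888, 549755813888)] :=
  cov_E (MA.chkB0_eq p1) (.n 2 (.n 2 (.n 2 (.n 2 .l .l) (.n 0 .l .l)) (.n 0 (.n 2 .l .l) (.n 2 .l .l))) (.n 2 (.n 2 (.n 0 .l .l) .l) (.n 2 .l .l)))
    [(247390011392, 27487895552), (144955146240, 9663676416), (549755813888, 549755813888)] rfl (by decide +kernel)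
theorem N1B0_t3 : Cov 1 (MB.prog0 p1) [(247390011392, 27487895552), (13743947776, 13743947776), (549755813888, 549755813888)] :=
  cov_E (MB.chkB0_eq p1) (.n 2 (.n 2 (.n 2 .l (.n 0 .l .l)) (.n 0 (.n 1 .l .l) (.n 2 .l .l))) (.n 1 (.n 0 (.n 2 .l .l) (.n 2 .l .l)) (.n 2 (.n 2 .l .l) (.n 2 .l .l))))
    [(247390011392, 27487895552), (13743947776, 13743947776), (549755813888, 549755813888)] rfl (by decide +kernel)
end

mutual
theorem N1B0_t4 : Cov 1 (MB.prog0 p1) [(247390011392, 27487895552), (41231843328, 13743947776), (549755813888, 549755813888)] :=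
  cov_E (MB.chkB0_eq p1) (.n 2 (.n 2 (.n 2 .l (.n 0 .l .l)) (.n 1 (.n 2 .l .l) (.n 2 .l .l))) (.n 1 (.n 2 (.n 2 .l .l) (.n 2 .l (.n 0 .l .l))) (.n 2 (.n 2 .l .l) (.n 0 (.n 1 .l .l) (.n 2 .l .l)))))
    [(247390011392, 27487895552), (41231843328, 13743947776), (549755813888, 549755813888)] rfl (by decide +kernel)
theorem N1B0_t5 : Cov 1 (MB.prog0 p1) [(247390011392, 27487895552), (68719738880, 13743947776), (549755813888, 549755813888)] :=
  cov_E (MB.chkB0_eq p1) (.n 2 (.n 2 (.n 2 .l (.n 0 .l .l)) (.n 1 (.n 2 .l .l) (.n 2 .l .l))) (.n 1 (.n 2 (.n 2 .l (.n 0 .l .l)) (.n 0 (.n 1 .l .l) (.n 2 .l .l))) (.n 2 (.n 2 .l (.n 0 .l .l)) (.n 0 (.n 1 .l .l) (.n 2 .l .l)))))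
    [(247390011392, 27487895552), (68719738880, 13743947776), (549755813888, 549755813888)] rfl (by decide +kernel)
end

mutual
theorem N1B0_t6 : Cov 1 (MB.prog0 p1) [(247390011392, 27487895552), (96207634432, 13743947776), (549755813888, 549755813888)] :=
  cov_E (MB.chkB0_eq p1) (.n 2 (.n 2 (.n 2 .l (.n 0 .l .l)) (.n 1 (.n 2 .l .l) (.n 2 .l .l))) (.n 0 (.n 1 (.n 2 (.n 1 .l .l) (.n 2 .l .l)) (.n 2 (.n 2 .l .l) (.n 2 .l .l))) (.n 1 (.n 2 (.n 2 .l .l) (.n 2 .l .l)) (.n 2 (.n 2 .l .l) (.n 2 .l .l)))))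
    [(247390011392, 27487895552), (96207634432, 13743947776), (549755813888, 549755813888)] rfl (by decide +kernel)
theorem N1B1_t1 : Cov 1 (MB.prog0 p1) [(247390011392, 27487895552), (123694743552, 13744209920), (386547056640, 386547056640)] :=
  cov_E (MB.chkB0_eq p1) (.n 2 (.n 2 (.n 1 .l .l) (.n 2 .l (.n 0 .l .l))) (.n 1 (.n 2 (.n 0 .l .l) (.n 2 .l .l)) (.n 2 (.n 0 .l .l) (.n 2 .l .l))))
    [(247390011392, 27487895552), (123694743552, 13744209920), (386547056640, 386547056640)] rfl (by decide +kernel)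
theorem N1B1_t2 : Cov 1 (MB.prog0 p1) [(247390011392, 27487895552), (151183163392, 13744209920), (386547056640, 386547056640)] :=
  cov_E (MB.chkB0_eq p1) (.n 2 (.n 2 (.n 2 .l .l) (.n 0 (.n 0 .l .l) (.n 1 .l .l))) (.n 1 (.n 2 (.n 2 .l .l) (.n 2 .l .l)) (.n 2 (.n 2 .l .l) (.n 0 .l (.n 0 .l .l)))))
    [(247390011392, 27487895552), (151183163392, 13744209920), (386547056640, 386547056640)] rfl (by decide +kernel)
end

theorem N0A_t1 : Cov 1 (MA.prog0 p0) [(247390011392, 27487895552), (38654705664, 38654705664), (549755813888, 549755813888)] :=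
  cov_split 1 (by decide +kernel) N0A_t3 N0A_t4

theorem N0A_t2 : Cov 1 (MA.prog0 p0) [(247390011392, 27487895552), (115964116992, 38654705664), (549755813888, 549755813888)] :=
  cov_split 1 (by decide +kernel) N0A_t5 N0A_t6

theorem N0A : Cov 1 (MA.prog0 p0) [(247390011392, 27487895552), (77309411328, 77309411328), (549755813888, 549755813888)] :=
  cov_split 1 (by decide +kernel) N0A_t1 N0A_t2

theorem N0B0_t1 : Cov 1 (MB.prog0 p0) [(247390011392, 27487895552), (27487895552, 27487895552), (549755813888, 549755813888)] :=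
  cov_split 1 (by decide +kernel) N0B0_t3 N0B0_t4

theorem N0B0_t2 : Cov 1 (MB.prog0 p0) [(247390011392, 27487895552), (82463686656, 27487895552), (549755813888, 549755813888)] :=
  cov_split 1 (by decide +kernel) N0B0_t5 N0B0_t6

theorem N0B0 : Cov 1 (MB.prog0 p0) [(247390011392, 27487895552), (54975791104, 54975791104), (549755813888, 549755813888)] :=
  cov_split 1 (by decide +kernel) N0B0_t1 N0B0_t2

theorem N0B1 : Cov 1 (MB.prog0 p0) [(247390011392, 27487895552), (137438953472, 27488419840), (386547056640, 386547056640)] :=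
  cov_split 1 (by decide +kernel) N0B1_t1 N0B1_t2

theorem N1A_t1 : Cov 1 (MA.prog0 p1) [(247390011392, 27487895552), (38654705664, 38654705664), (549755813888, 549755813888)] :=
  cov_split 1 (by decide +kernel) N1A_t3 N1A_t4

theorem N1A_t6 : Cov 1 (MA.prog0 p1) [(247390011392, 27487895552), (135291469824, 19327352832), (549755813888, 549755813888)] :=
  cov_split 1 (by decide +kernel) N1A_t7 N1A_t8

theorem N1A_t2 : Cov 1 (MA.prog0 p1) [(247390011392, 27487895552), (115964116992, 38654705664), (549755813888, 549755813888)] :=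
  cov_split 1 (by decide +kernel) N1A_t5 N1A_t6

theorem N1A : Cov 1 (MA.prog0 p1) [(247390011392, 27487895552), (77309411328, 77309411328), (549755813888, 549755813888)] :=
  cov_split 1 (by decide +kernel) N1A_t1 N1A_t2

theorem N1B0_t1 : Cov 1 (MB.prog0 p1) [(247390011392, 27487895552), (27487895552, 27487895552), (549755813888, 549755813888)] :=
  cov_split 1 (by decide +kernel) N1B0_t3 N1B0_t4

theorem N1B0_t2 : Cov 1 (MB.prog0 p1) [(247390011392, 27487895552), (82463686656, 27487895552), (549755813888, 549755813888)] :=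
  cov_split 1 (by decide +kernel) N1B0_t5 N1B0_t6

theorem N1B0 : Cov 1 (MB.prog0 p1) [(247390011392, 27487895552), (54975791104, 54975791104), (549755813888, 549755813888)] :=
  cov_split 1 (by decide +kernel) N1B0_t1 N1B0_t2

theorem N1B1 : Cov 1 (MB.prog0 p1) [(247390011392, 27487895552), (137438953472, 27488419840), (386547056640, 386547056640)] :=
  cov_split 1 (by decide +kernel) N1B1_t1 N1B1_t2

end Pool.Agent.helper12.KA
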