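import Pool.Agent.helper12.GP.LAP
import Pool.Agent.helper12.GP.LBP
import Pool.Agent.helper12.KA.P

/-!
Generated certificates.
-/

namespace Pool.Agent.helper12.KA

open Pool.Agent.helper31.IX (Cov cov_split)
open Pool.Agent.helper12.GP
open Pool.Agent.helper14.QF (cov_E)

mutual
theorem N6A_t3 : Cov 1 (LA.prog0 p6) [(247390011392, 27487895552), (38654705664, 38654705664), (274877906944, 274877906944)] :=
  cov_E (LA.chkB0_eq p6) (.n 1 (.n 2 (.n 2 (.n 2 .l .l) (.n 2 .l .l)) (.n 2 (.n 2 .l .l) (.n 1 .l .l))) (.n 2 (.n 2 (.n 2 .l .l) (.n 0 .l (.n 2 .l .l))) (.n 2 (.n 0 .l (.n 2 .l .l)) (.n 1 .l .l))))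
    [(247390011392, 27487895552), (38654705664, 38654705664), (274877906944, 274877906944)] rfl (by decide +kernel)
theorem N6A_t5 : Cov 1 (LA.prog0 p6) [(247390011392, 27487895552), (96636764160, 19327352832), (274877906944, 274877906944)] :=
  cov_E (LA.chkB0_eq p6) (.n 2 (.n 0 (.n 2 .l .l) (.n 2 (.n 2 .l .l) (.n 2 .l .l))) (.n 2 (.n 0 .l (.n 2 .l .l)) (.n 1 .l (.n 0 .l .l))))
    [(247390011392, 27487895552), (96636764160, 19327352832), (274877906944, 274877906944)] rfl (by decide +kernel)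
end

mutual
theorem N6A_t6 : Cov 1 (LA.prog0 p6) [(247390011392, 27487895552), (135291469824, 19327352832), (274877906944, 274877906944)] :=
  cov_E (LA.chkB0_eq p6) (.n 1 (.n 2 (.n 2 (.n 2 .l .l) (.n 2 .l .l)) (.n 0 (.n 2 .l .l) (.n 2 (.n 0 .l .l) .l))) (.n 0 (.n 2 (.n 2 .l .l) (.n 2 .l (.n 0 .l .l))) (.n 0 (.n 2 (.n 2 .l .l) (.n 2 .l .l)) (.n 2 (.n 2 .l .l) (.n 2 .l .l)))))
    [(247390011392, 27487895552), (135291469824, 19327352832), (274877906944, 274877906944)] rfl (by decide +kernel)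
theorem N6A_t7 : Cov 1 (LA.prog0 p6) [(247390011392, 27487895552), (38654705664, 38654705664), (824633720832, 274877906944)] :=
  cov_E (LA.chkB0_eq p6) (.n 1 (.n 2 (.n 2 .l .l) (.n 0 .l .l)) (.n 1 (.n 2 (.n 2 .l .l) .l) (.n 2 (.n 2 .l .l) (.n 0 .l .l))))
    [(247390011392, 27487895552), (38654705664, 38654705664), (824633720832, 274877906944)] rfl (by decide +kernel)
end

mutual
theorem N6A_t9 : Cov 1 (LA.prog0 p6) [(247390011392, 27487895552), (96636764160, 19327352832), (824633720832, 274877906944)] :=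
  cov_E (LA.chkB0_eq p6) (.n 1 (.n 2 (.n 2 .l .l) (.n 0 .l (.n 0 .l .l))) (.n 0 (.n 0 (.n 2 .l .l) (.n 2 .l .l)) (.n 2 (.n 2 .l .l) (.n 2 .l .l))))
    [(247390011392, 27487895552), (96636764160, 19327352832), (824633720832, 274877906944)] rfl (by decide +kernel)
theorem N6A_t11 : Cov 1 (LA.prog0 p6) [(233646063616, 13743947776), (135291469824, 19327352832), (824633720832, 274877906944)] :=
  cov_E (LA.chkB0_eq p6) (.n 1 (.n 2 (.n 2 .l .l) (.n 2 .l .l)) (.n 0 (.n 2 (.n 2 .l .l) (.n 2 .l .l)) (.n 2 (.n 2 .l .l) (.n 2 .l .l))))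
    [(233646063616, 13743947776), (135291469824, 19327352832), (824633720832, 274877906944)] rfl (by decide +kernel)
end

mutual
theorem N6A_t12 : Cov 1 (LA.prog0 p6) [(261133959168, 13743947776), (135291469824, 19327352832), (824633720832, 274877906944)] :=
  cov_E (LA.chkB0_eq p6) (.n 1 (.n 2 (.n 2 .l .l) (.n 0 (.n 1 .l .l) (.n 2 .l .l))) (.n 2 (.n 0 (.n 2 .l .l) (.n 2 .l .l)) (.n 2 (.n 2 .l .l) (.n 1 .l (.n 0 .l .l)))))
    [(261133959168, 13743947776), (135291469824, 19327352832), (824633720832, 274877906944)] rfl (by decide +kernel)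
theorem N6B0_t3 : Cov 1 (LB.prog0 p6) [(247390011392, 27487895552), (13743947776, 13743947776), (549755813888, 549755813888)] :=
  cov_E (LB.chkB0_eq p6) (.n 1 (.n 2 (.n 2 .l .l) (.n 2 .l .l)) (.n 2 (.n 2 .l .l) (.n 0 (.n 2 .l .l) (.n 2 .l .l))))
    [(247390011392, 27487895552), (13743947776, 13743947776), (549755813888, 549755813888)] rfl (by decide +kernel)
end

mutual
theorem N6B0_t4 : Cov 1 (LB.prog0 p6) [(247390011392, 27487895552), (41231843328, 13743947776), (549755813888, 549755813888)] :=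
  cov_E (LB.chkB0_eq p6) (.n 1 (.n 2 (.n 2 .l (.n 0 .l .l)) (.n 0 (.n 2 .l .l) (.n 2 .l (.n 0 .l .l)))) (.n 2 (.n 2 (.n 0 .l .l) (.n 2 .l .l)) (.n 0 (.n 1 (.n 2 .l .l) (.n 2 .l .l)) (.n 1 (.n 2 .l .l) (.n 2 .l (.n 0 .l .l))))))
    [(247390011392, 27487895552), (41231843328, 13743947776), (549755813888, 549755813888)] rfl (by decide +kernel)
theorem N6B0_t7 : Cov 1 (LB.prog0 p6) [(233646063616, 13743947776), (68719738880, 13743947776), (549755813888, 549755813888)] :=
  cov_E (LB.chkB0_eq p6) (.n 2 (.n 2 (.n 2 .l .l) (.n 1 (.n 0 .l .l) (.n 2 .l .l))) (.n 1 (.n 2 (.n 2 .l .l) (.n 0 (.n 2 .l .l) (.n 2 .l .l))) (.n 1 (.n 2 (.n 2 .l .l) (.n 2 .l (.n 0 .l .l))) (.n 2 (.n 2 .l .l) (.n 0 (.n 2 .l .l) (.n 2 .l .l))))))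
    [(233646063616, 13743947776), (68719738880, 13743947776), (549755813888, 549755813888)] rfl (by decide +kernel)
end

mutual
theorem N6B0_t9 : Cov 1 (LB.prog0 p6) [(233646063616, 13743947776), (89335660544, 6871973888), (549755813888, 549755813888)] :=
  cov_E (LB.chkB0_eq p6) (.n 2 (.n 2 (.n 2 .l .l) (.n 2 .l (.n 0 .l .l))) (.n 2 (.n 2 (.n 2 .l .l) (.n 0 (.n 0 .l .l) (.n 1 .l .l))) (.n 0 (.n 1 (.n 2 .l .l) (.n 2 .l (.n 0 .l .l))) (.n 1 (.n 2 .l (.n 0 .l .l)) (.n 2 (.n 0 .l .l) (.n 2 .l .l))))))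
    [(233646063616, 13743947776), (89335660544, 6871973888), (549755813888, 549755813888)] rfl (by decide +kernel)
theorem N6B0_t11 : Cov 1 (LB.prog0 p6) [(233646063616, 13743947776), (103079608320, 6871973888), (274877906944, 274877906944)] :=
  cov_E (LB.chkB0_eq p6) (.n 2 (.n 2 .l .l) (.n 0 (.n 2 .l .l) (.n 2 .l (.n 0 .l .l))))
    [(233646063616, 13743947776), (103079608320, 6871973888), (274877906944, 274877906944)] rfl (by decide +kernel)
end

mutual
theorem N6B0_t13 : Cov 1 (LB.prog0 p6) [(233646063616, 13743947776), (99643621376, 3435986944), (824633720832, 274877906944)] :=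
  cov_E (LB.chkB0_eq p6) (.n 2 (.n 2 (.n 0 .l .l) (.n 2 .l .l)) (.n 0 (.n 2 (.n 0 .l .l) (.n 2 .l .l)) (.n 2 (.n 2 .l .l) (.n 2 .l (.n 0 .l .l)))))
    [(233646063616, 13743947776), (99643621376, 3435986944), (824633720832, 274877906944)] rfl (by decide +kernel)
theorem N6B0_t14 : Cov 1 (LB.prog0 p6) [(233646063616, 13743947776), (106515595264, 3435986944), (824633720832, 274877906944)] :=
  cov_E (LB.chkB0_eq p6) (.n 2 (.n 2 (.n 2 .l .l) (.n 0 (.n 0 .l .l) (.n 2 .l .l))) (.n 0 (.n 2 (.n 2 .l .l) (.n 0 (.n 2 .l .l) (.n 2 .l .l))) (.n 2 (.n 2 .l (.n 0 .l .l)) (.n 1 (.n 2 .l .l) (.n 2 .l (.n 0 .l .l))))))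
    [(233646063616, 13743947776), (106515595264, 3435986944), (824633720832, 274877906944)] rfl (by decide +kernel)
end

mutual
theorem N6B0_t17 : Cov 1 (LB.prog0 p6) [(261133959168, 13743947776), (68719738880, 13743947776), (274877906944, 274877906944)] :=
  cov_E (LB.chkB0_eq p6) (.n 2 (.n 2 .l (.n 0 .l .l)) (.n 1 (.n 2 .l .l) (.n 2 .l (.n 0 .l .l))))
    [(261133959168, 13743947776), (68719738880, 13743947776), (274877906944, 274877906944)] rfl (by decide +kernel)
theorem N6B0_t18 : Cov 1 (LB.prog0 p6) [(261133959168, 13743947776), (68719738880, 13743947776), (824633720832, 274877906944)] :=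
  cov_E (LB.chkB0_eq p6) (.n 1 (.n 2 (.n 2 .l (.n 0 .l .l)) (.n 1 (.n 2 .l .l) (.n 2 .l (.n 0 .l .l)))) (.n 1 (.n 2 (.n 2 .l .l) (.n 0 (.n 2 .l .l) (.n 2 .l .l))) (.n 2 (.n 2 .l (.n 0 .l .l)) (.n 2 (.n 0 .l .l) (.n 2 .l (.n 0 .l .l))))))
    [(261133959168, 13743947776), (68719738880, 13743947776), (824633720832, 274877906944)] rfl (by decide +kernel)
end

mutual
theorem N6B0_t21 : Cov 1 (LB.prog0 p6) [(261133959168, 13743947776), (89335660544, 6871973888), (274877906944, 274877906944)] :=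
  cov_E (LB.chkB0_eq p6) (.n 2 (.n 2 .l .l) (.n 2 (.n 0 .l .l) (.n 2 .l .l)))
    [(261133959168, 13743947776), (89335660544, 6871973888), (274877906944, 274877906944)] rfl (by decide +kernel)
theorem N6B0_t23 : Cov 1 (LB.prog0 p6) [(261133959168, 13743947776), (85899673600, 3435986944), (824633720832, 274877906944)] :=
  cov_E (LB.chkB0_eq p6) (.n 2 (.n 0 (.n 2 .l .l) (.n 2 .l .l)) (.n 2 (.n 2 .l (.n 0 .l .l)) (.n 0 (.n 2 .l .l) (.n 2 .l .l))))
    [(261133959168, 13743947776), (85899673600, 3435986944), (824633720832, 274877906944)] rfl (by decide +kernel)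
end

mutual
theorem N6B0_t24 : Cov 1 (LB.prog0 p6) [(261133959168, 13743947776), (92771647488, 3435986944), (824633720832, 274877906944)] :=
  cov_E (LB.chkB0_eq p6) (.n 2 (.n 2 (.n 0 .l .l) (.n 2 .l (.n 0 .l .l))) (.n 0 (.n 2 (.n 2 .l .l) (.n 2 .l (.n 0 .l .l))) (.n 2 (.n 2 .l .l) (.n 1 (.n 2 .l .l) (.n 2 .l .l)))))
    [(261133959168, 13743947776), (92771647488, 3435986944), (824633720832, 274877906944)] rfl (by decide +kernel)
theorem N6B0_t25 : Cov 1 (LB.prog0 p6) [(261133959168, 13743947776), (103079608320, 6871973888), (274877906944, 274877906944)] :=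
  cov_E (LB.chkB0_eq p6) (.n 2 (.n 2 .l (.n 0 .l .l)) (.n 2 (.n 2 .l .l) (.n 0 (.n 1 .l .l) (.n 2 .l .l))))
    [(261133959168, 13743947776), (103079608320, 6871973888), (274877906944, 274877906944)] rfl (by decide +kernel)
end

mutual
theorem N6B0_t27 : Cov 1 (LB.prog0 p6) [(261133959168, 13743947776), (99643621376, 3435986944), (824633720832, 274877906944)] :=
  cov_E (LB.chkB0_eq p6) (.n 2 (.n 2 (.n 2 .l .l) (.n 0 (.n 2 .l .l) (.n 2 .l .l))) (.n 0 (.n 2 (.n 2 .l .l) (.n 0 (.n 2 .l .l) (.n 2 .l (.n 0 .l .l)))) (.n 1 (.n 2 (.n 2 .l .l) (.n 2 .l (.n 0 .l .l))) (.n 2 (.n 2 .l .l) (.n 0 (.n 2 .l .l) (.n 2 .l .l))))))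
    [(261133959168, 13743947776), (99643621376, 3435986944), (824633720832, 274877906944)] rfl (by decide +kernel)
theorem N6B0_t29 : Cov 1 (LB.prog0 p6) [(254261985280, 6871973888), (106515595264, 3435986944), (824633720832, 274877906944)] :=
  cov_E (LB.chkB0_eq p6) (.n 2 (.n 2 (.n 0 .l .l) (.n 2 .l .l)) (.n 1 (.n 2 (.n 2 .l .l) (.n 2 .l (.n 0 .l .l))) (.n 2 (.n 2 .l .l) (.n 2 (.n 0 .l .l) (.n 2 .l .l)))))
    [(254261985280, 6871973888), (106515595264, 3435986944), (824633720832, 274877906944)] rfl (by decide +kernel)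
theorem N6B0_t30 : Cov 1 (LB.prog0 p6) [(268005933056, 6871973888), (106515595264, 3435986944), (824633720832, 274877906944)] :=
  cov_E (LB.chkB0_eq p6) (.n 2 (.n 2 (.n 2 .l .l) (.n 2 .l (.n 0 .l .l))) (.n 1 (.n 2 (.n 2 .l (.n 0 .l .l)) (.n 2 (.n 0 .l .l) (.n 2 .l (.n 0 .l .l)))) (.n 2 (.n 2 .l (.n 0 .l .l)) (.n 2 (.n 2 .l .l) (.n 0 (.n 1 .l .l) (.n 2 .l .l))))))
    [(268005933056, 6871973888), (106515595264, 3435986944), (824633720832, 274877906944)] rfl (by decide +kernel)
end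

theorem N6A_t4 : Cov 1 (LA.prog0 p6) [(247390011392, 27487895552), (115964116992, 38654705664), (274877906944, 274877906944)] :=
  cov_split 1 (by decide +kernel) N6A_t5 N6A_t6

theorem N6A_t1 : Cov 1 (LA.prog0 p6) [(247390011392, 27487895552), (77309411328, 77309411328), (274877906944, 274877906944)] :=
  cov_split 1 (by decide +kernel) N6A_t3 N6A_t4

theorem N6A_t10 : Cov 1 (LA.prog0 p6) [(247390011392, 27487895552), (135291469824, 19327352832), (824633720832, 274877906944)] :=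
  cov_split 0 (by decide +kernel) N6A_t11 N6A_t12

theorem N6A_t8 : Cov 1 (LA.prog0 p6) [(247390011392, 27487895552), (115964116992, 38654705664), (824633720832, 274877906944)] :=
  cov_split 1 (by decide +kernel) N6A_t9 N6A_t10

theorem N6A_t2 : Cov 1 (LA.prog0 p6) [(247390011392, 27487895552), (77309411328, 77309411328), (824633720832, 274877906944)] :=
  cov_split 1 (by decide +kernel) N6A_t7 N6A_t8

theorem N6A : Cov 1 (LA.prog0 p6) [(247390011392, 27487895552), (77309411328, 77309411328), (549755813888, 549755813888)] :=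
  cov_split 2 (by decide +kernel) N6A_t1 N6A_t2

theorem N6B0_t1 : Cov 1 (LB.prog0 p6) [(247390011392, 27487895552), (27487895552, 27487895552), (549755813888, 549755813888)] :=
  cov_split 1 (by decide +kernel) N6B0_t3 N6B0_t4

theorem N6B0_t12 : Cov 1 (LB.prog0 p6) [(233646063616, 13743947776), (103079608320, 6871973888), (824633720832, 274877906944)] :=
  cov_split 1 (by decide +kernel) N6B0_t13 N6B0_t14

theorem N6B0_t10 : Cov 1 (LB.prog0 p6) [(233646063616, 13743947776), (103079608320, 6871973888), (549755813888, 549755813888)] :=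
  cov_split 2 (by decide +kernel) N6B0_t11 N6B0_t12

theorem N6B0_t8 : Cov 1 (LB.prog0 p6) [(233646063616, 13743947776), (96207634432, 13743947776), (549755813888, 549755813888)] :=
  cov_split 1 (by decide +kernel) N6B0_t9 N6B0_t10

theorem N6B0_t5 : Cov 1 (LB.prog0 p6) [(233646063616, 13743947776), (82463686656, 27487895552), (549755813888, 549755813888)] :=
  cov_split 1 (by decide +kernel) N6B0_t7 N6B0_t8

theorem N6B0_t15 : Cov 1 (LB.prog0 p6) [(261133959168, 13743947776), (68719738880, 13743947776), (549755813888, 549755813888)] :=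
  cov_split 2 (by decide +kernel) N6B0_t17 N6B0_t18

theorem N6B0_t22 : Cov 1 (LB.prog0 p6) [(261133959168, 13743947776), (89335660544, 6871973888), (824633720832, 274877906944)] :=
  cov_split 1 (by decide +kernel) N6B0_t23 N6B0_t24

theorem N6B0_t19 : Cov 1 (LB.prog0 p6) [(261133959168, 13743947776), (89335660544, 6871973888), (549755813888, 549755813888)] :=
  cov_split 2 (by decide +kernel) N6B0_t21 N6B0_t22

theorem N6B0_t28 : Cov 1 (LB.prog0 p6) [(261133959168, 13743947776), (106515595264, 3435986944), (824633720832, 274877906944)] :=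
  cov_split 0 (by decide +kernel) N6B0_t29 N6B0_t30

theorem N6B0_t26 : Cov 1 (LB.prog0 p6) [(261133959168, 13743947776), (103079608320, 6871973888), (824633720832, 274877906944)] :=
  cov_split 1 (by decide +kernel) N6B0_t27 N6B0_t28

theorem N6B0_t20 : Cov 1 (LB.prog0 p6) [(261133959168, 13743947776), (103079608320, 6871973888), (549755813888, 549755813888)] :=
  cov_split 2 (by decide +kernel) N6B0_t25 N6B0_t26

theorem N6B0_t16 : Cov 1 (LB.prog0 p6) [(261133959168, 13743947776), (96207634432, 13743947776), (549755813888, 549755813888)] :=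
  cov_split 1 (by decide +kernel) N6B0_t19 N6B0_t20

theorem N6B0_t6 : Cov 1 (LB.prog0 p6) [(261133959168, 13743947776), (82463686656, 27487895552), (549755813888, 549755813888)] :=
  cov_split 1 (by decide +kernel) N6B0_t15 N6B0_t16

theorem N6B0_t2 : Cov 1 (LB.prog0 p6) [(247390011392, 27487895552), (82463686656, 27487895552), (549755813888, 549755813888)] :=
  cov_split 0 (by decide +kernel) N6B0_t5 N6B0_t6

theorem N6B0 : Cov 1 (LB.prog0 p6) [(247390011392, 27487895552), (54975791104, 54975791104), (549755813888, 549755813888)] :=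
  cov_split 1 (by decide +kernel) N6B0_t1 N6B0_t2

end Pool.Agent.helper12.KA
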