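import Pool.Agent.helper12.GP.LBP
import Pool.Agent.helper12.KA.P

/-!
Generated certificates.
-/

namespace Pool.Agent.helper12.KA

open Pool.Agent.helper31.IX (Cov cov_split)
open Pool.Agent.helper12.GP
open Pool.Agent.helper14.QF (cov_E)

mutual
theorem N6B1a_t3 : Cov 1 (LB.prog0 p6) [(233646063616, 13743947776), (116822638592, 6872104960), (386547056640, 386547056640)] :=
  cov_E (LB.chkB0_eq p6) (.n 2 (.n 2 (.n 2 .l .l) (.n 2 .l (.n 0 .l .l))) (.n 0 (.n 2 (.n 2 .l (.n 0 .l .l)) (.n 1 (.n 2 .l .l) (.n 2 .l (.n 0 .l .l)))) (.n 2 (.n 2 .l (.n 0 .l .l)) (.n 1 (.n 2 .l (.n 0 .l .l)) (.n 2 .l (.n 0 .l .l))))))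
    [(233646063616, 13743947776), (116822638592, 6872104960), (386547056640, 386547056640)] rfl (by decide +kernel)
theorem N6B1a_t5 : Cov 1 (LB.prog0 p6) [(233646063616, 13743947776), (130566848512, 6872104960), (193273528320, 193273528320)] :=
  cov_E (LB.chkB0_eq p6) (.n 2 (.n 2 .l (.n 0 .l .l)) (.n 0 (.n 2 .l .l) (.n 2 .l (.n 0 .l .l))))
    [(233646063616, 13743947776), (130566848512, 6872104960), (193273528320, 193273528320)] rfl (by decide +kernel)
end

mutual
theorem N6B1a_t7 : Cov 1 (LB.prog0 p6) [(226774089728, 6871973888), (130566848512, 6872104960), (579820584960, 193273528320)] :=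
  cov_E (LB.chkB0_eq p6) (.n 1 (.n 2 (.n 2 .l .l) (.n 0 (.n 2 .l .l) (.n 2 .l .l))) (.n 2 (.n 2 .l .l) (.n 2 (.n 0 .l .l) (.n 2 .l .l))))
    [(226774089728, 6871973888), (130566848512, 6872104960), (579820584960, 193273528320)] rfl (by decide +kernel)
theorem N6B1a_t8 : Cov 1 (LB.prog0 p6) [(240518037504, 6871973888), (130566848512, 6872104960), (579820584960, 193273528320)] :=
  cov_E (LB.chkB0_eq p6) (.n 1 (.n 2 (.n 2 .l .l) (.n 2 (.n 0 .l .l) (.n 2 .l .l))) (.n 2 (.n 2 .l (.n 0 .l .l)) (.n 2 (.n 2 .l .l) (.n 2 .l (.n 0 .l .l)))))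
    [(240518037504, 6871973888), (130566848512, 6872104960), (579820584960, 193273528320)] rfl (by decide +kernel)
end

mutual
theorem N6B1a_t11 : Cov 1 (LB.prog0 p6) [(226774089728, 6871973888), (144311058432, 6872104960), (386547056640, 386547056640)] :=
  cov_E (LB.chkB0_eq p6) (.n 2 (.n 2 (.n 2 .l .l) (.n 2 .l (.n 0 .l .l))) (.n 2 (.n 2 (.n 1 .l .l) (.n 2 .l (.n 0 .l .l))) (.n 1 (.n 2 (.n 2 .l .l) (.n 2 .l (.n 0 .l .l))) (.n 2 (.n 2 .l .l) (.n 0 (.n 2 .l .l) (.n 2 .l .l))))))
    [(226774089728, 6871973888), (144311058432, 6872104960), (386547056640, 386547056640)] rfl (by decide +kernel)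
theorem N6B1a_t13 : Cov 1 (LB.prog0 p6) [(226774089728, 6871973888), (158055268352, 6872104960), (193273528320, 193273528320)] :=
  cov_E (LB.chkB0_eq p6) (.n 2 (.n 2 .l .l) (.n 1 (.n 2 .l .l) (.n 2 .l .l)))
    [(226774089728, 6871973888), (158055268352, 6872104960), (193273528320, 193273528320)] rfl (by decide +kernel)
end

mutual
theorem N6B1a_t15 : Cov 1 (LB.prog0 p6) [(226774089728, 6871973888), (158055268352, 6872104960), (483183820800, 96636764160)] :=
  cov_E (LB.chkB0_eq p6) (.n 2 (.n 2 .l (.n 0 .l .l)) (.n 1 (.n 2 .l .l) (.n 2 .l .l)))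
    [(226774089728, 6871973888), (158055268352, 6872104960), (483183820800, 96636764160)] rfl (by decide +kernel)
theorem N6B1a_t16 : Cov 1 (LB.prog0 p6) [(226774089728, 6871973888), (158055268352, 6872104960), (676457349120, 96636764160)] :=
  cov_E (LB.chkB0_eq p6) (.n 1 (.n 2 (.n 2 .l (.n 0 .l .l)) (.n 0 (.n 2 .l .l) (.n 2 .l (.n 0 .l .l)))) (.n 0 (.n 2 (.n 2 .l .l) (.n 2 .l (.n 0 .l .l))) (.n 2 (.n 2 .l .l) (.n 0 (.n 2 .l .l) (.n 2 .l .l)))))
    [(226774089728, 6871973888), (158055268352, 6872104960), (676457349120, 96636764160)] rfl (by decide +kernel)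
end

mutual
theorem N6B1a_t19 : Cov 1 (LB.prog0 p6) [(240518037504, 6871973888), (144311058432, 6872104960), (193273528320, 193273528320)] :=
  cov_E (LB.chkB0_eq p6) (.n 2 (.n 2 .l .l) (.n 1 (.n 2 .l .l) (.n 2 .l .l)))
    [(240518037504, 6871973888), (144311058432, 6872104960), (193273528320, 193273528320)] rfl (by decide +kernel)
theorem N6B1a_t20 : Cov 1 (LB.prog0 p6) [(240518037504, 6871973888), (144311058432, 6872104960), (579820584960, 193273528320)] :=
  cov_E (LB.chkB0_eq p6) (.n 1 (.n 2 (.n 2 .l (.n 0 .l .l)) (.n 2 (.n 2 .l .l) (.n 0 (.n 2 .l .l) (.n 2 .l .l)))) (.n 2 (.n 2 (.n 0 .l .l) (.n 2 .l .l)) (.n 2 (.n 2 .l (.n 0 .l .l)) (.n 0 (.n 2 .l (.n 0 .l .l)) (.n 2 .l (.n 0 .l .l))))))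
    [(240518037504, 6871973888), (144311058432, 6872104960), (579820584960, 193273528320)] rfl (by decide +kernel)
end

mutual
theorem N6B1a_t21 : Cov 1 (LB.prog0 p6) [(240518037504, 6871973888), (158055268352, 6872104960), (193273528320, 193273528320)] :=
  cov_E (LB.chkB0_eq p6) (.n 2 (.n 2 .l (.n 0 .l .l)) (.n 2 (.n 1 .l .l) (.n 2 .l .l)))
    [(240518037504, 6871973888), (158055268352, 6872104960), (193273528320, 193273528320)] rfl (by decide +kernel)
theorem N6B1a_t23 : Cov 1 (LB.prog0 p6) [(240518037504, 6871973888), (154619215872, 3436052480), (579820584960, 193273528320)] :=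
  cov_E (LB.chkB0_eq p6) (.n 2 (.n 2 (.n 0 .l .l) (.n 2 .l .l)) (.n 0 (.n 2 (.n 2 .l .l) (.n 2 .l (.n 0 .l .l))) (.n 2 (.n 2 .l .l) (.n 1 (.n 2 .l .l) (.n 2 .l .l)))))
    [(240518037504, 6871973888), (154619215872, 3436052480), (579820584960, 193273528320)] rfl (by decide +kernel)
theorem N6B1a_t24 : Cov 1 (LB.prog0 p6) [(240518037504, 6871973888), (161491320832, 3436052480), (579820584960, 193273528320)] :=
  cov_E (LB.chkB0_eq p6) (.n 2 (.n 2 (.n 2 .l .l) (.n 2 .l (.n 0 .l .l))) (.n 0 (.n 2 (.n 2 .l .l) (.n 1 (.n 2 .l .l) (.n 2 .l .l))) (.n 2 (.n 2 .l (.n 0 .l .l)) (.n 1 (.n 2 .l .l) (.n 2 .l (.n 0 .l .l))))))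
    [(240518037504, 6871973888), (161491320832, 3436052480), (579820584960, 193273528320)] rfl (by decide +kernel)
end

theorem N6B1a_t6 : Cov 1 (LB.prog0 p6) [(233646063616, 13743947776), (130566848512, 6872104960), (579820584960, 193273528320)] :=
  cov_split 0 (by decide +kernel) N6B1a_t7 N6B1a_t8

theorem N6B1a_t4 : Cov 1 (LB.prog0 p6) [(233646063616, 13743947776), (130566848512, 6872104960), (386547056640, 386547056640)] :=
  cov_split 2 (by decide +kernel) N6B1a_t5 N6B1a_t6

theorem N6B1a_t1 : Cov 1 (LB.prog0 p6) [(233646063616, 13743947776), (123694743552, 13744209920), (386547056640, 386547056640)] :=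
  cov_split 1 (by decide +kernel) N6B1a_t3 N6B1a_t4

theorem N6B1a_t14 : Cov 1 (LB.prog0 p6) [(226774089728, 6871973888), (158055268352, 6872104960), (579820584960, 193273528320)] :=
  cov_split 2 (by decide +kernel) N6B1a_t15 N6B1a_t16

theorem N6B1a_t12 : Cov 1 (LB.prog0 p6) [(226774089728, 6871973888), (158055268352, 6872104960), (386547056640, 386547056640)] :=
  cov_split 2 (by decide +kernel) N6B1a_t13 N6B1a_t14

theorem N6B1a_t9 : Cov 1 (LB.prog0 p6) [(226774089728, 6871973888), (151183163392, 13744209920), (386547056640, 386547056640)] :=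
  cov_split 1 (by decide +kernel) N6B1a_t11 N6B1a_t12

theorem N6B1a_t17 : Cov 1 (LB.prog0 p6) [(240518037504, 6871973888), (144311058432, 6872104960), (386547056640, 386547056640)] :=
  cov_split 2 (by decide +kernel) N6B1a_t19 N6B1a_t20

theorem N6B1a_t22 : Cov 1 (LB.prog0 p6) [(240518037504, 6871973888), (158055268352, 6872104960), (579820584960, 193273528320)] :=
  cov_split 1 (by decide +kernel) N6B1a_t23 N6B1a_t24

theorem N6B1a_t18 : Cov 1 (LB.prog0 p6) [(240518037504, 6871973888), (158055268352, 6872104960), (386547056640, 386547056640)] :=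
  cov_split 2 (by decide +kernel) N6B1a_t21 N6B1a_t22

theorem N6B1a_t10 : Cov 1 (LB.prog0 p6) [(240518037504, 6871973888), (151183163392, 13744209920), (386547056640, 386547056640)] :=
  cov_split 1 (by decide +kernel) N6B1a_t17 N6B1a_t18

theorem N6B1a_t2 : Cov 1 (LB.prog0 p6) [(233646063616, 13743947776), (151183163392, 13744209920), (386547056640, 386547056640)] :=
  cov_split 0 (by decide +kernel) N6B1a_t9 N6B1a_t10

theorem N6B1a : Cov 1 (LB.prog0 p6) [(233646063616, 13743947776), (137438953472, 27488419840), (386547056640, 386547056640)] :=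
  cov_split 1 (by decide +kernel) N6B1a_t1 N6B1a_t2

end Pool.Agent.helper12.KA
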