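import Pool.Agent.helper12.GP.FAP
import Pool.Agent.helper12.GP.LBP
import Pool.Agent.helper12.KA.P

/-!
Generated certificates.
-/

namespace Pool.Agent.helper12.KA

open Pool.Agent.helper31.IX (Cov cov_split)
open Pool.Agent.helper12.GP
open Pool.Agent.helper14.QF (cov_E)

mutual
theorem N6B1b_t5 : Cov 1 (LB.prog0 p6) [(261133959168, 13743947776), (116822638592, 6872104960), (193273528320, 193273528320)] :=
  cov_E (LB.chkB0_eq p6) (.n 2 (.n 2 .l (.n 0 .l .l)) (.n 0 (.n 2 .l .l) (.n 2 .l (.n 0 .l .l))))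
    [(261133959168, 13743947776), (116822638592, 6872104960), (193273528320, 193273528320)] rfl (by decide +kernel)
theorem N6B1b_t7 : Cov 1 (LB.prog0 p6) [(254261985280, 6871973888), (116822638592, 6872104960), (579820584960, 193273528320)] :=
  cov_E (LB.chkB0_eq p6) (.n 1 (.n 2 (.n 2 .l .l) (.n 2 .l (.n 1 .l .l))) (.n 2 (.n 2 .l .l) (.n 2 (.n 0 .l .l) (.n 2 .l .l))))
    [(254261985280, 6871973888), (116822638592, 6872104960), (579820584960, 193273528320)] rfl (by decide +kernel)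
end

mutual
theorem N6B1b_t8 : Cov 1 (LB.prog0 p6) [(268005933056, 6871973888), (116822638592, 6872104960), (579820584960, 193273528320)] :=
  cov_E (LB.chkB0_eq p6) (.n 1 (.n 2 (.n 2 .l .l) (.n 2 (.n 0 .l .l) (.n 2 .l .l))) (.n 2 (.n 2 .l (.n 0 .l .l)) (.n 2 (.n 2 .l .l) (.n 0 (.n 2 .l .l) (.n 2 .l .l)))))
    [(268005933056, 6871973888), (116822638592, 6872104960), (579820584960, 193273528320)] rfl (by decide +kernel)
theorem N6B1b_t9 : Cov 1 (LB.prog0 p6) [(254261985280, 6871973888), (130566848512, 6872104960), (386547056640, 386547056640)] :=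
  cov_E (LB.chkB0_eq p6) (.n 2 (.n 2 (.n 2 .l .l) (.n 2 .l (.n 0 .l .l))) (.n 2 (.n 2 (.n 2 .l .l) (.n 0 (.n 1 .l .l) (.n 2 .l .l))) (.n 1 (.n 2 (.n 2 .l .l) (.n 2 .l (.n 0 .l .l))) (.n 2 (.n 2 .l .l) (.n 1 (.n 2 .l .l) (.n 2 .l .l))))))
    [(254261985280, 6871973888), (130566848512, 6872104960), (386547056640, 386547056640)] rfl (by decide +kernel)
end

mutual
theorem N6B1b_t11 : Cov 1 (LB.prog0 p6) [(268005933056, 6871973888), (130566848512, 6872104960), (193273528320, 193273528320)] :=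
  cov_E (LB.chkB0_eq p6) (.n 2 (.n 2 .l .l) (.n 1 (.n 2 .l .l) (.n 2 .l .l)))
    [(268005933056, 6871973888), (130566848512, 6872104960), (193273528320, 193273528320)] rfl (by decide +kernel)
theorem N6B1b_t13 : Cov 1 (LB.prog0 p6) [(268005933056, 6871973888), (127130796032, 3436052480), (579820584960, 193273528320)] :=
  cov_E (LB.chkB0_eq p6) (.n 2 (.n 2 (.n 0 .l .l) (.n 2 .l .l)) (.n 2 (.n 2 .l (.n 0 .l .l)) (.n 0 (.n 2 .l .l) (.n 2 .l (.n 0 .l .l)))))
    [(268005933056, 6871973888), (127130796032, 3436052480), (579820584960, 193273528320)] rfl (by decide +kernel)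
end

mutual
theorem N6B1b_t14 : Cov 1 (LB.prog0 p6) [(268005933056, 6871973888), (134002900992, 3436052480), (579820584960, 193273528320)] :=
  cov_E (LB.chkB0_eq p6) (.n 2 (.n 2 (.n 0 .l .l) (.n 2 .l .l)) (.n 0 (.n 2 (.n 2 .l .l) (.n 2 .l (.n 0 .l .l))) (.n 2 (.n 2 .l .l) (.n 1 (.n 2 .l .l) (.n 2 .l .l)))))
    [(268005933056, 6871973888), (134002900992, 3436052480), (579820584960, 193273528320)] rfl (by decide +kernel)
theorem N6B1b_t19 : Cov 1 (LB.prog0 p6) [(254261985280, 6871973888), (144311058432, 6872104960), (193273528320, 193273528320)] :=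
  cov_E (LB.chkB0_eq p6) (.n 2 (.n 2 .l .l) (.n 2 (.n 0 .l .l) (.n 2 .l .l)))
    [(254261985280, 6871973888), (144311058432, 6872104960), (193273528320, 193273528320)] rfl (by decide +kernel)
end

mutual
theorem N6B1b_t21 : Cov 1 (LB.prog0 p6) [(254261985280, 6871973888), (140875005952, 3436052480), (579820584960, 193273528320)] :=
  cov_E (LB.chkB0_eq p6) (.n 2 (.n 2 (.n 0 .l .l) (.n 2 .l .l)) (.n 2 (.n 2 .l (.n 0 .l .l)) (.n 0 (.n 2 .l (.n 0 .l .l)) (.n 1 (.n 2 .l .l) (.n 2 .l .l)))))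
    [(254261985280, 6871973888), (140875005952, 3436052480), (579820584960, 193273528320)] rfl (by decide +kernel)
theorem N6B1b_t22 : Cov 1 (LB.prog0 p6) [(254261985280, 6871973888), (147747110912, 3436052480), (579820584960, 193273528320)] :=
  cov_E (LB.chkB0_eq p6) (.n 2 (.n 2 (.n 2 .l .l) (.n 2 .l .l)) (.n 2 (.n 2 (.n 0 .l .l) (.n 2 .l .l)) (.n 0 (.n 1 (.n 2 .l .l) (.n 2 .l .l)) (.n 1 (.n 2 .l .l) (.n 2 .l .l)))))
    [(254261985280, 6871973888), (147747110912, 3436052480), (579820584960, 193273528320)] rfl (by decide +kernel)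
end

mutual
theorem N6B1b_t23 : Cov 1 (LB.prog0 p6) [(254261985280, 6871973888), (158055268352, 6872104960), (193273528320, 193273528320)] :=
  cov_E (LB.chkB0_eq p6) (.n 2 (.n 2 .l (.n 0 .l .l)) (.n 2 (.n 2 .l .l) (.n 0 (.n 1 .l .l) (.n 2 .l .l))))
    [(254261985280, 6871973888), (158055268352, 6872104960), (193273528320, 193273528320)] rfl (by decide +kernel)
theorem N6B1b_t25 : Cov 1 (LB.prog0 p6) [(254261985280, 6871973888), (154619215872, 3436052480), (579820584960, 193273528320)] :=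
  cov_E (LB.chkB0_eq p6) (.n 2 (.n 2 (.n 2 .l .l) (.n 2 .l (.n 0 .l .l))) (.n 0 (.n 2 (.n 2 .l (.n 0 .l .l)) (.n 2 (.n 1 .l .l) (.n 2 .l .l))) (.n 2 (.n 2 .l (.n 0 .l .l)) (.n 1 (.n 2 .l (.n 0 .l .l)) (.n 2 .l (.n 0 .l .l))))))
    [(254261985280, 6871973888), (154619215872, 3436052480), (579820584960, 193273528320)] rfl (by decide +kernel)
end

mutual
theorem N6B1b_t27 : Cov 1 (LB.prog0 p6) [(254261985280, 6871973888), (161491320832, 3436052480), (483183820800, 96636764160)] :=
  cov_E (LB.chkB0_eq p6) (.n 2 (.n 2 .l .l) (.n 0 (.n 2 .l .l) (.n 2 .l .l)))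
    [(254261985280, 6871973888), (161491320832, 3436052480), (483183820800, 96636764160)] rfl (by decide +kernel)
theorem N6B1b_t28 : Cov 1 (LB.prog0 p6) [(254261985280, 6871973888), (161491320832, 3436052480), (676457349120, 96636764160)] :=
  cov_E (LB.chkB0_eq p6) (.n 0 (.n 2 (.n 0 (.n 2 .l .l) (.n 2 .l .l)) (.n 2 (.n 2 .l .l) (.n 0 (.n 1 .l .l) (.n 1 .l .l)))) (.n 2 (.n 1 (.n 2 .l .l) (.n 2 .l .l)) (.n 2 (.n 2 .l (.n 0 .l .l)) (.n 1 (.n 2 .l .l) (.n 2 .l .l)))))
    [(254261985280, 6871973888), (161491320832, 3436052480), (676457349120, 96636764160)] rfl (by decide +kernel)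
end

mutual
theorem N6B1b_t31 : Cov 1 (LB.prog0 p6) [(268005933056, 6871973888), (144311058432, 6872104960), (193273528320, 193273528320)] :=
  cov_E (LB.chkB0_eq p6) (.n 2 (.n 2 .l (.n 0 .l .l)) (.n 2 (.n 1 .l .l) (.n 2 .l (.n 0 .l .l))))
    [(268005933056, 6871973888), (144311058432, 6872104960), (193273528320, 193273528320)] rfl (by decide +kernel)
theorem N6B1b_t33 : Cov 1 (LB.prog0 p6) [(268005933056, 6871973888), (140875005952, 3436052480), (579820584960, 193273528320)] :=
  cov_E (LB.chkB0_eq p6) (.n 2 (.n 2 (.n 2 .l .l) (.n 2 .l (.n 0 .l .l))) (.n 0 (.n 2 (.n 2 .l .l) (.n 1 (.n 2 .l .l) (.n 2 .l .l))) (.n 2 (.n 2 .l (.n 0 .l .l)) (.n 1 (.n 2 .l .l) (.n 2 .l (.n 0 .l .l))))))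
    [(268005933056, 6871973888), (140875005952, 3436052480), (579820584960, 193273528320)] rfl (by decide +kernel)
end

mutual
theorem N6B1b_t35 : Cov 1 (LB.prog0 p6) [(268005933056, 6871973888), (147747110912, 3436052480), (483183820800, 96636764160)] :=
  cov_E (LB.chkB0_eq p6) (.n 2 (.n 2 .l .l) (.n 0 (.n 2 .l .l) (.n 2 .l .l)))
    [(268005933056, 6871973888), (147747110912, 3436052480), (483183820800, 96636764160)] rfl (by decide +kernel)
theorem N6B1b_t36 : Cov 1 (LB.prog0 p6) [(268005933056, 6871973888), (147747110912, 3436052480), (676457349120, 96636764160)] :=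
  cov_E (LB.chkB0_eq p6) (.n 0 (.n 2 (.n 2 .l (.n 0 .l .l)) (.n 2 (.n 1 .l .l) (.n 2 .l (.n 0 .l .l)))) (.n 1 (.n 2 (.n 2 .l .l) (.n 2 .l (.n 0 .l .l))) (.n 2 (.n 2 .l .l) (.n 2 (.n 0 .l .l) (.n 2 .l .l)))))
    [(268005933056, 6871973888), (147747110912, 3436052480), (676457349120, 96636764160)] rfl (by decide +kernel)
end

mutual
theorem N6B1b_t37 : Cov 1 (LB.prog0 p6) [(268005933056, 6871973888), (158055268352, 6872104960), (193273528320, 193273528320)] :=
  cov_E (LB.chkB0_eq p6) (.n 2 (.n 1 (.n 2 .l .l) (.n 2 .l .l)) (.n 2 (.n 2 .l (.n 0 .l .l)) (.n 1 (.n 2 .l .l) (.n 2 .l .l))))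
    [(268005933056, 6871973888), (158055268352, 6872104960), (193273528320, 193273528320)] rfl (by decide +kernel)
theorem N6B1b_t41 : Cov 1 (LB.prog0 p6) [(268005933056, 6871973888), (154619215872, 3436052480), (483183820800, 96636764160)] :=
  cov_E (LB.chkB0_eq p6) (.n 2 (.n 2 .l (.n 0 .l .l)) (.n 2 (.n 0 .l .l) (.n 2 .l .l)))
    [(268005933056, 6871973888), (154619215872, 3436052480), (483183820800, 96636764160)] rfl (by decide +kernel)
end

mutual
theorem N6B1b_t42 : Cov 1 (LB.prog0 p6) [(268005933056, 6871973888), (154619215872, 3436052480), (676457349120, 96636764160)] :=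
  cov_E (LB.chkB0_eq p6) (.n 0 (.n 2 (.n 1 (.n 2 .l .l) (.n 2 .l .l)) (.n 2 (.n 2 .l (.n 0 .l .l)) (.n 1 (.n 1 .l .l) (.n 2 .l .l)))) (.n 2 (.n 2 (.n 1 .l .l) (.n 2 .l .l)) (.n 1 (.n 2 (.n 0 .l .l) (.n 2 .l .l)) (.n 2 (.n 2 .l .l) (.n 2 .l .l)))))
    [(268005933056, 6871973888), (154619215872, 3436052480), (676457349120, 96636764160)] rfl (by decide +kernel)
theorem N6B1b_t43 : Cov 1 (LB.prog0 p6) [(268005933056, 6871973888), (161491320832, 3436052480), (483183820800, 96636764160)] :=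
  cov_E (LB.chkB0_eq p6) (.n 2 (.n 2 .l (.n 0 .l .l)) (.n 0 (.n 2 .l (.n 0 .l .l)) (.n 2 .l (.n 1 .l .l))))
    [(268005933056, 6871973888), (161491320832, 3436052480), (483183820800, 96636764160)] rfl (by decide +kernel)
end

mutual
theorem N6B1b_t45 : Cov 1 (LB.prog0 p6) [(264569946112, 3435986944), (161491320832, 3436052480), (676457349120, 96636764160)] :=
  cov_E (LB.chkB0_eq p6) (.n 2 (.n 2 (.n 1 .l .l) (.n 2 .l (.n 0 .l .l))) (.n 1 (.n 2 (.n 0 .l .l) (.n 2 .l .l)) (.n 2 (.n 2 .l .l) (.n 2 .l .l))))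
    [(264569946112, 3435986944), (161491320832, 3436052480), (676457349120, 96636764160)] rfl (by decide +kernel)
theorem N6B1b_t46 : Cov 1 (LB.prog0 p6) [(271441920000, 3435986944), (161491320832, 3436052480), (676457349120, 96636764160)] :=
  cov_E (LB.chkB0_eq p6) (.n 2 (.n 2 (.n 2 .l .l) (.n 0 (.n 1 .l .l) (.n 2 .l .l))) (.n 1 (.n 2 (.n 2 .l .l) (.n 2 .l (.n 0 .l .l))) (.n 2 (.n 2 .l .l) (.n 2 .l (.n 0 .l .l)))))
    [(271441920000, 3435986944), (161491320832, 3436052480), (676457349120, 96636764160)] rfl (by decide +kernel)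
end

mutual
theorem FA_t3 : Cov 1 (FA.prog0 pF) [(233646063616, 13743947776), (13743947776, 13743947776), (549755813888, 549755813888)] :=
  cov_E (FA.chkB0_eq pF) (.n 0 (.n 1 (.n 2 (.n 2 .l .l) (.n 2 .l .l)) (.n 2 (.n 2 .l .l) (.n 2 .l .l))) (.n 1 (.n 2 (.n 2 .l .l) (.n 2 .l .l)) (.n 2 (.n 2 .l .l) (.n 2 .l .l))))
    [(233646063616, 13743947776), (13743947776, 13743947776), (549755813888, 549755813888)] rfl (by decide +kernel)
theorem FA_t4 : Cov 1 (FA.prog0 pF) [(233646063616, 13743947776), (41231843328, 13743947776), (549755813888, 549755813888)] :=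
  cov_E (FA.chkB0_eq pF) (.n 1 (.n 2 (.n 2 (.n 2 .l .l) (.n 2 .l .l)) (.n 0 (.n 2 .l .l) (.n 2 .l .l))) (.n 2 (.n 2 (.n 2 .l .l) (.n 0 (.n 0 .l .l) (.n 1 .l .l))) (.n 2 (.n 2 .l (.n 0 .l .l)) (.n 1 .l (.n 0 .l .l)))))
    [(233646063616, 13743947776), (41231843328, 13743947776), (549755813888, 549755813888)] rfl (by decide +kernel)
end

mutual
theorem FA_t5 : Cov 1 (FA.prog0 pF) [(261133959168, 13743947776), (13743947776, 13743947776), (549755813888, 549755813888)] :=
  cov_E (FA.chkB0_eq pF) (.n 1 (.n 0 (.n 2 (.n 2 .l .l) (.n 2 .l .l)) (.n 2 (.n 2 .l .l) (.n 2 .l .l))) (.n 1 (.n 2 (.n 2 .l .l) (.n 2 .l .l)) (.n 2 (.n 2 .l .l) (.n 2 .l .l))))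
    [(261133959168, 13743947776), (13743947776, 13743947776), (549755813888, 549755813888)] rfl (by decide +kernel)
theorem FA_t7 : Cov 1 (FA.prog0 pF) [(261133959168, 13743947776), (34359869440, 6871973888), (549755813888, 549755813888)] :=
  cov_E (FA.chkB0_eq pF) (.n 2 (.n 2 (.n 2 .l .l) (.n 2 .l .l)) (.n 1 (.n 2 .l .l) (.n 0 (.n 2 .l .l) (.n 2 .l .l))))
    [(261133959168, 13743947776), (34359869440, 6871973888), (549755813888, 549755813888)] rfl (by decide +kernel)
theorem FA_t8 : Cov 1 (FA.prog0 pF) [(261133959168, 13743947776), (48103817216, 6871973888), (549755813888, 549755813888)] :=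
  cov_E (FA.chkB0_eq pF) (.n 0 (.n 1 (.n 2 (.n 2 .l .l) (.n 2 .l .l)) (.n 2 (.n 2 .l .l) (.n 2 .l .l))) (.n 2 (.n 2 (.n 2 .l .l) (.n 1 .l .l)) (.n 1 (.n 2 .l .l) (.n 2 .l .l))))
    [(261133959168, 13743947776), (48103817216, 6871973888), (549755813888, 549755813888)] rfl (by decide +kernel)
end

theorem N6B1b_t6 : Cov 1 (LB.prog0 p6) [(261133959168, 13743947776), (116822638592, 6872104960), (579820584960, 193273528320)] :=
  cov_split 0 (by decide +kernel) N6B1b_t7 N6B1b_t8

theorem N6B1b_t3 : Cov 1 (LB.prog0 p6) [(261133959168, 13743947776), (116822638592, 6872104960), (386547056640, 386547056640)] :=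
  cov_split 2 (by decide +kernel) N6B1b_t5 N6B1b_t6

theorem N6B1b_t12 : Cov 1 (LB.prog0 p6) [(268005933056, 6871973888), (130566848512, 6872104960), (579820584960, 193273528320)] :=
  cov_split 1 (by decide +kernel) N6B1b_t13 N6B1b_t14

theorem N6B1b_t10 : Cov 1 (LB.prog0 p6) [(268005933056, 6871973888), (130566848512, 6872104960), (386547056640, 386547056640)] :=
  cov_split 2 (by decide +kernel) N6B1b_t11 N6B1b_t12

theorem N6B1b_t4 : Cov 1 (LB.prog0 p6) [(261133959168, 13743947776), (130566848512, 6872104960), (386547056640, 386547056640)] :=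
  cov_split 0 (by decide +kernel) N6B1b_t9 N6B1b_t10

theorem N6B1b_t1 : Cov 1 (LB.prog0 p6) [(261133959168, 13743947776), (123694743552, 13744209920), (386547056640, 386547056640)] :=
  cov_split 1 (by decide +kernel) N6B1b_t3 N6B1b_t4

theorem N6B1b_t20 : Cov 1 (LB.prog0 p6) [(254261985280, 6871973888), (144311058432, 6872104960), (579820584960, 193273528320)] :=
  cov_split 1 (by decide +kernel) N6B1b_t21 N6B1b_t22

theorem N6B1b_t17 : Cov 1 (LB.prog0 p6) [(254261985280, 6871973888), (144311058432, 6872104960), (386547056640, 386547056640)] :=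
  cov_split 2 (by decide +kernel) N6B1b_t19 N6B1b_t20

theorem N6B1b_t26 : Cov 1 (LB.prog0 p6) [(254261985280, 6871973888), (161491320832, 3436052480), (579820584960, 193273528320)] :=
  cov_split 2 (by decide +kernel) N6B1b_t27 N6B1b_t28

theorem N6B1b_t24 : Cov 1 (LB.prog0 p6) [(254261985280, 6871973888), (158055268352, 6872104960), (579820584960, 193273528320)] :=
  cov_split 1 (by decide +kernel) N6B1b_t25 N6B1b_t26

theorem N6B1b_t18 : Cov 1 (LB.prog0 p6) [(254261985280, 6871973888), (158055268352, 6872104960), (386547056640, 386547056640)] :=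
  cov_split 2 (by decide +kernel) N6B1b_t23 N6B1b_t24

theorem N6B1b_t15 : Cov 1 (LB.prog0 p6) [(254261985280, 6871973888), (151183163392, 13744209920), (386547056640, 386547056640)] :=
  cov_split 1 (by decide +kernel) N6B1b_t17 N6B1b_t18

theorem N6B1b_t34 : Cov 1 (LB.prog0 p6) [(268005933056, 6871973888), (147747110912, 3436052480), (579820584960, 193273528320)] :=
  cov_split 2 (by decide +kernel) N6B1b_t35 N6B1b_t36

theorem N6B1b_t32 : Cov 1 (LB.prog0 p6) [(268005933056, 6871973888), (144311058432, 6872104960), (579820584960, 193273528320)] :=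
  cov_split 1 (by decide +kernel) N6B1b_t33 N6B1b_t34

theorem N6B1b_t29 : Cov 1 (LB.prog0 p6) [(268005933056, 6871973888), (144311058432, 6872104960), (386547056640, 386547056640)] :=
  cov_split 2 (by decide +kernel) N6B1b_t31 N6B1b_t32

theorem N6B1b_t39 : Cov 1 (LB.prog0 p6) [(268005933056, 6871973888), (154619215872, 3436052480), (579820584960, 193273528320)] :=
  cov_split 2 (by decide +kernel) N6B1b_t41 N6B1b_t42

theorem N6B1b_t44 : Cov 1 (LB.prog0 p6) [(268005933056, 6871973888), (161491320832, 3436052480), (676457349120, 96636764160)] :=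
  cov_split 0 (by decide +kernel) N6B1b_t45 N6B1b_t46

theorem N6B1b_t40 : Cov 1 (LB.prog0 p6) [(268005933056, 6871973888), (161491320832, 3436052480), (579820584960, 193273528320)] :=
  cov_split 2 (by decide +kernel) N6B1b_t43 N6B1b_t44

theorem N6B1b_t38 : Cov 1 (LB.prog0 p6) [(268005933056, 6871973888), (158055268352, 6872104960), (579820584960, 193273528320)] :=
  cov_split 1 (by decide +kernel) N6B1b_t39 N6B1b_t40

theorem N6B1b_t30 : Cov 1 (LB.prog0 p6) [(268005933056, 6871973888), (158055268352, 6872104960), (386547056640, 386547056640)] :=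
  cov_split 2 (by decide +kernel) N6B1b_t37 N6B1b_t38

theorem N6B1b_t16 : Cov 1 (LB.prog0 p6) [(268005933056, 6871973888), (151183163392, 13744209920), (386547056640, 386547056640)] :=
  cov_split 1 (by decide +kernel) N6B1b_t29 N6B1b_t30

theorem N6B1b_t2 : Cov 1 (LB.prog0 p6) [(261133959168, 13743947776), (151183163392, 13744209920), (386547056640, 386547056640)] :=
  cov_split 0 (by decide +kernel) N6B1b_t15 N6B1b_t16

theorem N6B1b : Cov 1 (LB.prog0 p6) [(261133959168, 13743947776), (137438953472, 27488419840), (386547056640, 386547056640)] :=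
  cov_split 1 (by decide +kernel) N6B1b_t1 N6B1b_t2

theorem FA_t1 : Cov 1 (FA.prog0 pF) [(233646063616, 13743947776), (27487895552, 27487895552), (549755813888, 549755813888)] :=
  cov_split 1 (by decide +kernel) FA_t3 FA_t4

theorem FA_t6 : Cov 1 (FA.prog0 pF) [(261133959168, 13743947776), (41231843328, 13743947776), (549755813888, 549755813888)] :=
  cov_split 1 (by decide +kernel) FA_t7 FA_t8

theorem FA_t2 : Cov 1 (FA.prog0 pF) [(261133959168, 13743947776), (27487895552, 27487895552), (549755813888, 549755813888)] :=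
  cov_split 1 (by decide +kernel) FA_t5 FA_t6

theorem FA : Cov 1 (FA.prog0 pF) [(247390011392, 27487895552), (27487895552, 27487895552), (549755813888, 549755813888)] :=
  cov_split 0 (by decide +kernel) FA_t1 FA_t2

end Pool.Agent.helper12.KA
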